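import Mathlib

/-!
# Lower semicontinuous functions as increasing limits of Lipschitz functions
-/

set_option autoImplicit false
set_option linter.unusedSectionVars false

open MeasureTheory Set Filter Topology
open scoped ENNReal NNReal

namespace Pool.Agent.K9h73.RM

variable {X : Type*} [MetricSpace X]

/-- inf-convolution -/
noncomputable def infc (ρ : X → ℝ≥0∞) (k : ℕ) (x : X) : ℝ :=
  ⨅ y : X, ((min (ρ y) k).toReal + k * dist x y)

section
variable (ρ : X → ℝ≥0∞) (k : ℕ)

theorem infc_bdd (x : X) :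
    BddBelow (range fun y : X => ((min (ρ y) k).toReal + k * dist x y)) :=
  ⟨0, by rintro _ ⟨y, rfl⟩; positivity⟩

theorem infc_nonneg (x : X) : 0 ≤ infc ρ k x :=
  Real.iInf_nonneg fun y => by positivity

theorem infc_le_self (x : X) : infc ρ k x ≤ (min (ρ x) k).toReal := by
  have h : infc ρ k x ≤ (min (ρ x) k).toReal + k * dist x x := ciInf_le (infc_bdd ρ k x) x
  rwa [dist_self, mul_zero, add_zero] at h

theorem infc_le (x : X) : infc ρ k x ≤ k := by
  refine (infc_le_self ρ k x).trans ?_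
  have h : min (ρ x) (k : ℝ≥0∞) ≤ k := min_le_right _ _
  have := ENNReal.toReal_mono (ENNReal.natCast_ne_top k) h
  simpa using this

theorem infc_lip (x x' : X) : infc ρ k x ≤ infc ρ k x' + k * dist x x' := by
  rw [← sub_le_iff_le_add]
  have : Nonempty X := ⟨x⟩
  apply le_ciInf
  intro y
  have h1 := ciInf_le (infc_bdd ρ k x) y
  have h2 : dist x y ≤ dist x x' + dist x' y := dist_triangle _ _ _
  have h3 : (k : ℝ) * dist x y ≤ k * (dist x x' + dist x' y) :=
    mul_le_mul_of_nonneg_left h2 (Nat.cast_nonneg k)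
  have h4 : infc ρ k x ≤ (min (ρ y) k).toReal + k * dist x y := h1
  linarith

theorem infc_continuous : Continuous (infc ρ k) := by
  have : LipschitzWith (k : ℝ≥0) (infc ρ k) := by
    apply LipschitzWith.of_dist_le_mul
    intro x y
    rw [Real.dist_eq, abs_le]
    have h1 := infc_lip ρ k x y
    have h2 := infc_lip ρ k y x
    rw [dist_comm] at h2
    constructor <;> simp <;> linarith
  exact this.continuous

theorem infc_mono (x : X) : Monotone fun k => infc ρ k x := by
  intro j k hjk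
  have : Nonempty X := ⟨x⟩
  apply le_ciInf
  intro y
  have h1 := ciInf_le (infc_bdd ρ j x) y
  have hjk' : (j : ℝ) ≤ k := by exact_mod_cast hjk
  have h2 : (min (ρ y) (j : ℝ≥0∞)).toReal ≤ (min (ρ y) (k : ℝ≥0∞)).toReal := by
    apply ENNReal.toReal_mono
    · exact ne_top_of_le_ne_top (ENNReal.natCast_ne_top k) (min_le_right _ _)
    · exact min_le_min_left _ (by exact_mod_cast hjk)
  have h3 : (j : ℝ) * dist x y ≤ k * dist x y := mul_le_mul_of_nonneg_right hjk' dist_nonneg
  have h4 : infc ρ j x ≤ (min (ρ y) j).toReal + j * dist x y := h1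
  show infc ρ j x ≤ _
  linarith

theorem infc_ofReal_le (x : X) : ENNReal.ofReal (infc ρ k x) ≤ ρ x := by
  calc ENNReal.ofReal (infc ρ k x) ≤ ENNReal.ofReal ((min (ρ x) k).toReal) :=
        ENNReal.ofReal_le_ofReal (infc_le_self ρ k x)
    _ ≤ min (ρ x) k := ENNReal.ofReal_toReal_le
    _ ≤ ρ x := min_le_left _ _

end

theorem infc_iSup {ρ : X → ℝ≥0∞} (hρ : LowerSemicontinuous ρ) (x : X) :
    ⨆ k : ℕ, ENNReal.ofReal (infc ρ k x) = ρ x := by
  apply le_antisymm (iSup_le fun k => infc_ofReal_le ρ k x)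
  refine le_of_forall_lt fun a ha => ?_
  obtain ⟨b, hab, hb⟩ := exists_between ha
  have hbt : b ≠ ∞ := ne_top_of_lt hb
  have h1 := hρ x b hb
  obtain ⟨δ, hδ, hball⟩ := Metric.eventually_nhds_iff_ball.1 h1
  obtain ⟨k, hk⟩ := exists_nat_ge (max b.toReal (b.toReal / δ))
  refine lt_of_lt_of_le hab (le_trans ?_ (le_iSup _ k))
  rw [← ENNReal.ofReal_toReal hbt]
  apply ENNReal.ofReal_le_ofReal
  have : Nonempty X := ⟨x⟩
  apply le_ciInf
  intro y
  by_cases hy : y ∈ Metric.ball x δ
  · have h2 := hball y hy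
    have h3 : b ≤ min (ρ y) k := by
      apply le_min h2.le
      rw [← ENNReal.ofReal_toReal hbt]
      have : ((k : ℝ≥0∞)) = ENNReal.ofReal (k : ℝ) := by simp
      rw [this]
      exact ENNReal.ofReal_le_ofReal ((le_max_left _ _).trans hk)
    have h4 := ENNReal.toReal_mono
      (ne_top_of_le_ne_top (ENNReal.natCast_ne_top k) (min_le_right (ρ y) _)) h3
    have : 0 ≤ (k : ℝ) * dist x y := by positivity
    linarith
  · have h2 : δ ≤ dist x y := by
      rw [Metric.mem_ball, not_lt, dist_comm] at hy; exact hy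
    have h3 : b.toReal / δ ≤ k := (le_max_right _ _).trans hk
    rw [div_le_iff₀ hδ] at h3
    have h4 : (k : ℝ) * δ ≤ k * dist x y := mul_le_mul_of_nonneg_left h2 (Nat.cast_nonneg k)
    have : 0 ≤ (min (ρ y) (k : ℝ≥0∞)).toReal := ENNReal.toReal_nonneg
    linarith

/-- increasing approximation of a lower semicontinuous function by bounded continuous functions
lying above a given bounded continuous minorant -/
theorem exists_approx {ρ : X → ℝ≥0∞} (hρ : LowerSemicontinuous ρ) {w : X → ℝ}
    (hw : Continuous w) {W : ℝ} (hW : ∀ x, w x ≤ W)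
    (hwρ : ∀ x, ENNReal.ofReal (w x) ≤ ρ x) :
    ∃ σ : ℕ → X → ℝ, (∀ k, Continuous (σ k)) ∧ (∀ k x, w x ≤ σ k x) ∧
      (∀ x, Monotone fun k => σ k x) ∧ (∀ x, ⨆ k : ℕ, ENNReal.ofReal (σ k x) = ρ x) ∧
      ∀ k, ∃ K, ∀ x, σ k x ≤ K := by
  refine ⟨fun k x => max (infc ρ k x) (w x), fun k => (infc_continuous ρ k).max hw,
    fun k x => le_max_right _ _, fun x j k hjk => max_le_max_right _ (infc_mono ρ x hjk),
    fun x => ?_, fun k => ⟨max k W, fun x => max_le_max (infc_le ρ k x) (hW x)⟩⟩
  apply le_antisymm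
  · apply iSup_le
    intro k
    rw [ENNReal.ofReal_max]
    exact max_le (infc_ofReal_le ρ k x) (hwρ x)
  · rw [← infc_iSup hρ x]
    apply iSup_mono
    intro k
    exact ENNReal.ofReal_le_ofReal (le_max_left _ _)

end Pool.Agent.K9h73.RM
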