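import Pool.Agent.K9h73.RM.Basic

/-!
# Arc-length parametrization of continuous rectifiable curves
-/

set_option autoImplicit false
set_option linter.unusedSectionVars false

open MeasureTheory Set Filter Topology
open scoped ENNReal NNReal

namespace Pool.Agent.K9h73.RM

variable {Y : Type*} [MetricSpace Y]

section
variable {f : ℝ → Y} {a b : ℝ} (hab : a ≤ b) (hf : ContinuousOn f (Icc a b))
  (hbv : BoundedVariationOn f (Icc a b))
include hab hbv

theorem var_monotone : MonotoneOn (variationOnFromTo f (Icc a b) a) (Icc a b) :=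
  variationOnFromTo.monotoneOn hbv.locallyBoundedVariationOn (left_mem_Icc.2 hab)

include hf in
theorem var_continuous : ContinuousOn (variationOnFromTo f (Icc a b) a) (Icc a b) := by
  intro x hx
  have hl := hbv.locallyBoundedVariationOn
  have ha : a ∈ Icc a b := left_mem_Icc.2 hab
  have h1 : ContinuousWithinAt (variationOnFromTo f (Icc a b) a) (Icc a b ∩ Iio x) x := by
    have := variationOnFromTo.tendsto_left ha hx hl (l := f x)
      ((hf x hx).mono_left (nhdsWithin_mono _ inter_subset_left))
    rwa [dist_self, sub_zero] at this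
  have h2 : ContinuousWithinAt (variationOnFromTo f (Icc a b) a) (Icc a b ∩ Ioi x) x := by
    have := variationOnFromTo.tendsto_right ha hx hl (l := f x)
      ((hf x hx).mono_left (nhdsWithin_mono _ inter_subset_left))
    rwa [dist_self, add_zero] at this
  have h3 := continuousWithinAt_insert_self.2 (h1.union h2)
  apply h3.mono
  intro y hy
  rcases lt_trichotomy y x with h | h | h
  · exact Or.inr (Or.inl ⟨hy, h⟩)
  · exact Or.inl h
  · exact Or.inr (Or.inr ⟨hy, h⟩)

include hf in
theorem var_image : variationOnFromTo f (Icc a b) a '' Icc a b =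
    Icc 0 (variationOnFromTo f (Icc a b) a b) := by
  have ha : a ∈ Icc a b := left_mem_Icc.2 hab
  have hb : b ∈ Icc a b := right_mem_Icc.2 hab
  apply Subset.antisymm
  · rintro _ ⟨x, hx, rfl⟩
    refine ⟨?_, var_monotone hab hbv hx hb hx.2⟩
    exact variationOnFromTo.nonneg_of_le _ _ hx.1
  · have := intermediate_value_Icc hab (var_continuous hab hf hbv)
    rwa [variationOnFromTo.self] at this

include hf in
theorem nat_unit : LipschitzOnWith 1 (naturalParameterization f (Icc a b) a)
    (Icc 0 (variationOnFromTo f (Icc a b) a b)) := by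
  have h := has_unit_speed_naturalParameterization f hbv.locallyBoundedVariationOn
    (left_mem_Icc.2 hab)
  rw [var_image hab hf hbv] at h
  have key : ∀ x ∈ Icc 0 (variationOnFromTo f (Icc a b) a b),
      ∀ y ∈ Icc 0 (variationOnFromTo f (Icc a b) a b), x ≤ y →
      edist (naturalParameterization f (Icc a b) a x)
        (naturalParameterization f (Icc a b) a y) ≤ edist x y := by
    intro x hx y hy hxy
    have h1 := h hx hy
    rw [NNReal.coe_one, one_mul] at h1
    refine (eVariationOn.edist_le _ (s := Icc 0 (variationOnFromTo f (Icc a b) a b) ∩ Icc x y)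
      ⟨hx, le_rfl, hxy⟩ ⟨hy, hxy, le_rfl⟩).trans (h1.le.trans ?_)
    rw [edist_dist, Real.dist_eq, abs_sub_comm, abs_of_nonneg (by linarith)]
  intro x hx y hy
  rw [ENNReal.coe_one, one_mul]
  rcases le_total x y with hxy | hxy
  · exact key x hx y hy hxy
  · rw [edist_comm, edist_comm x y]; exact key y hy x hx hxy

theorem nat_var {t : ℝ} (ht : t ∈ Icc a b) :
    naturalParameterization f (Icc a b) a (variationOnFromTo f (Icc a b) a t) = f t := by
  have := edist_naturalParameterization_eq_zero hbv.locallyBoundedVariationOn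
    (left_mem_Icc.2 hab) ht
  exact edist_eq_zero.1 this

include hf in
/-- a rectifiable curve has a `1`-Lipschitz parametrization -/
theorem exists_arc : ∃ c : ℝ → Y, LipschitzWith 1 c ∧
    (∀ s ∈ Icc 0 (variationOnFromTo f (Icc a b) a b),
      c s = naturalParameterization f (Icc a b) a s) ∧
    (∀ t ∈ Icc a b, c (variationOnFromTo f (Icc a b) a t) = f t) := by
  have hL : 0 ≤ variationOnFromTo f (Icc a b) a b :=
    variationOnFromTo.nonneg_of_le _ _ hab
  set L := variationOnFromTo f (Icc a b) a b with hLdef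
  have h1 : ∀ s ∈ Icc 0 L, (projIcc 0 L hL s : ℝ) = s := fun s hs => by
    rw [projIcc_of_mem hL hs]
  have h2 : ∀ s ∈ Icc 0 L, (fun s => naturalParameterization f (Icc a b) a
      (projIcc 0 L hL s)) s = naturalParameterization f (Icc a b) a s := by
    intro s hs
    simp only [h1 s hs]
  refine ⟨fun s => naturalParameterization f (Icc a b) a (projIcc 0 L hL s), ?_, h2, ?_⟩
  · have h3 := (nat_unit hab hf hbv)
    intro x y
    have h4 := h3 (projIcc 0 L hL x).2 (projIcc 0 L hL y).2
    refine h4.trans ?_
    have h5 : LipschitzWith 1 (projIcc 0 L hL) := LipschitzWith.projIcc _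
    exact mul_le_mul_right (h5 x y |>.trans (by rw [ENNReal.coe_one, one_mul])) _
  · intro t ht
    have hm : variationOnFromTo f (Icc a b) a t ∈ Icc 0 L := by
      rw [hLdef, ← var_image hab hf hbv]; exact mem_image_of_mem _ ht
    rw [h2 _ hm]
    exact nat_var hab hbv ht

end

/-- for a `1`-Lipschitz curve the integral with respect to arc length is at most the integral
with respect to the parameter -/
theorem arc_integral_le [MeasurableSpace Y] [BorelSpace Y] {c : ℝ → Y} (hc : LipschitzWith 1 c)
    {p q : ℝ} (hpq : p ≤ q) {ρ : Y → ℝ≥0∞} (hρ : Measurable ρ) :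
    ∫⁻ s in Icc 0 (variationOnFromTo c (Icc p q) p q),
      ρ (naturalParameterization c (Icc p q) p s) ≤ ∫⁻ t in Icc p q, ρ (c t) := by
  have hvar : ∀ x ∈ Icc p q, ∀ y ∈ Icc p q, x ≤ y →
      eVariationOn c (Icc p q ∩ Icc x y) ≤ ENNReal.ofReal (y - x) := by
    intro x hx y hy hxy
    have h1 := (hc.lipschitzOnWith (s := univ)).comp_eVariationOn_le (g := fun t : ℝ => t)
      (s := Icc p q ∩ Icc x y) (mapsTo_univ _ _)
    have h2 : eVariationOn (fun t : ℝ => t) (Icc p q ∩ Icc x y) ≤ ENNReal.ofReal (y - x) :=
      (MonotoneOn.eVariationOn_eq (fun _ _ _ _ h => h) hx hy).le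
    rw [ENNReal.coe_one, one_mul] at h1
    exact h1.trans h2
  have hbv : BoundedVariationOn c (Icc p q) := by
    have h1 := hvar p (left_mem_Icc.2 hpq) q (right_mem_Icc.2 hpq) hpq
    rw [inter_self] at h1
    exact ne_top_of_le_ne_top ENNReal.ofReal_ne_top h1
  have hcont : ContinuousOn c (Icc p q) := hc.continuous.continuousOn
  set V := variationOnFromTo c (Icc p q) p with hV
  set L := V q with hL
  obtain ⟨g, hg1, hg2, hg3⟩ := exists_arc hpq hcont hbv
  have hVlip : LipschitzOnWith 1 V (Icc p q) := by
    have key : ∀ x ∈ Icc p q, ∀ y ∈ Icc p q, x ≤ y → |V x - V y| ≤ |x - y| := by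
      intro x hx y hy hxy
      have h1 : V x - V y = - (eVariationOn c (Icc p q ∩ Icc x y)).toReal := by
        have := variationOnFromTo.add hbv.locallyBoundedVariationOn (left_mem_Icc.2 hpq) hx hy
        rw [variationOnFromTo.eq_of_le _ _ hxy] at this
        rw [hV]; linarith
      rw [h1, abs_neg, abs_of_nonneg ENNReal.toReal_nonneg, abs_sub_comm,
        abs_of_nonneg (by linarith)]
      have := ENNReal.toReal_mono ENNReal.ofReal_ne_top (hvar x hx y hy hxy)
      rwa [ENNReal.toReal_ofReal (by linarith)] at this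
    apply LipschitzOnWith.of_dist_le_mul
    intro x hx y hy
    rw [NNReal.coe_one, one_mul, Real.dist_eq, Real.dist_eq]
    rcases le_total x y with hxy | hxy
    · exact key x hx y hy hxy
    · rw [abs_sub_comm, abs_sub_comm x y]; exact key y hy x hx hxy
  have hVc : ContinuousOn V (Icc p q) := hVlip.continuousOn
  have hVm : AEMeasurable V (volume.restrict (Icc p q)) :=
    hVc.aemeasurable measurableSet_Icc
  have himg : V '' Icc p q = Icc 0 L := var_image hpq hcont hbv
  have hmeas : (volume : Measure ℝ).restrict (Icc 0 L) ≤ (volume.restrict (Icc p q)).map V := by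
    refine Measure.le_iff.2 fun A hA => ?_
    rw [Measure.restrict_apply hA, Measure.map_apply_of_aemeasurable hVm hA]
    have h1 : A ∩ Icc 0 L ⊆ V '' (V ⁻¹' A ∩ Icc p q) := by
      rintro x ⟨hx, hxL⟩
      rw [← himg] at hxL
      obtain ⟨t, ht, rfl⟩ := hxL
      exact ⟨t, ⟨hx, ht⟩, rfl⟩
    have h2 := (hVlip.mono (inter_subset_right (s := V ⁻¹' A)
      (t := Icc p q))).hausdorffMeasure_image_le (d := 1) zero_le_one
    rw [hausdorffMeasure_real] at h2
    calc volume (A ∩ Icc 0 L) ≤ volume (V '' (V ⁻¹' A ∩ Icc p q)) := measure_mono h1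
      _ ≤ _ := h2
      _ = volume (V ⁻¹' A ∩ Icc p q) := by simp
      _ ≤ _ := Measure.le_restrict_apply _ _
  calc ∫⁻ s in Icc 0 L, ρ (naturalParameterization c (Icc p q) p s)
      = ∫⁻ s in Icc 0 L, ρ (g s) := by
        apply setLIntegral_congr_fun measurableSet_Icc
        intro s hs
        simp only [hg2 s hs]
    _ ≤ ∫⁻ s, ρ (g s) ∂((volume.restrict (Icc p q)).map V) := lintegral_mono' hmeas le_rfl
    _ = ∫⁻ t in Icc p q, ρ (g (V t)) :=
        lintegral_map' (hρ.comp hg1.continuous.measurable).aemeasurable hVm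
    _ = ∫⁻ t in Icc p q, ρ (c t) := by
        apply setLIntegral_congr_fun measurableSet_Icc
        intro t ht
        simp only [hV, hg3 t ht]

end Pool.Agent.K9h73.RM
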