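import Mathlib

/-!
# Lipschitz curves, the distance function of a continuous metric density, and its pointwise slope
-/

set_option autoImplicit false
set_option linter.unusedSectionVars false

open MeasureTheory Set Filter Topology
open scoped ENNReal NNReal

namespace Pool.Agent.K9h73.RM

/-- the set of points where a real function vanishes and has a non-zero derivative is countable -/
theorem countable_zero_deriv (g : ℝ → ℝ) :
    {t : ℝ | g t = 0 ∧ DifferentiableAt ℝ g t ∧ deriv g t ≠ 0}.Countable := by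
  set D := {t : ℝ | g t = 0 ∧ DifferentiableAt ℝ g t ∧ deriv g t ≠ 0} with hD
  have hdisc : DiscreteTopology D := by
    rw [discreteTopology_subtype_iff]
    intro t ht
    obtain ⟨h0, h1, h2⟩ := ht
    have h3 := h1.hasDerivAt.eventually_ne (c := 0) h2
    rw [← disjoint_iff, disjoint_principal_right]
    filter_upwards [h3] with z hz hzD
    exact hz hzD.1
  exact (HereditarilyLindelofSpace.isLindelof D).countable hdisc

/-- almost everywhere on `{g = 0}` the derivative vanishes -/
theorem ae_deriv_zero (g : ℝ → ℝ) :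
    ∀ᵐ t : ℝ, g t = 0 → DifferentiableAt ℝ g t → deriv g t = 0 := by
  have h := (countable_zero_deriv g).ae_notMem volume
  filter_upwards [h] with t ht h0 h1
  by_contra h2
  exact ht ⟨h0, h1, h2⟩

variable {X : Type*} [NormedAddCommGroup X] [NormedSpace ℝ X]

/-- `c` is a `1`-Lipschitz curve which is in `A` at time `0` and in `B` at time `T` -/
structure IsCurve (A B : Set X) (T : ℝ) (c : ℝ → X) : Prop where
  nonneg : 0 ≤ T
  lip : LipschitzWith 1 c
  start : c 0 ∈ A
  fin : c T ∈ B

/-- the pointwise slope of `v` at `x` is at most `h` -/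
def SlopeLE (v : X → ℝ) (h : ℝ) (x : X) : Prop :=
  ∀ ε > 0, ∀ᶠ y in 𝓝 x, |v y - v x| ≤ (h + ε) * ‖y - x‖

omit [NormedSpace ℝ X] in
theorem lip_dist {c : ℝ → X} (hc : LipschitzWith 1 c) (s t : ℝ) : ‖c s - c t‖ ≤ |s - t| := by
  have := hc.dist_le_mul s t
  rw [dist_eq_norm, Real.dist_eq, NNReal.coe_one, one_mul] at this
  exact this

theorem SlopeLE.deriv_le {v : X → ℝ} {h : ℝ} {c : ℝ → X} {t d : ℝ} (h0 : 0 ≤ h)
    (hs : SlopeLE v h (c t)) (hc : LipschitzWith 1 c) (hd : HasDerivAt (fun s => v (c s)) d t) :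
    |d| ≤ h := by
  refine le_of_forall_pos_le_add fun ε hε => ?_
  have h1 : ∀ᶠ s in 𝓝 t, ‖v (c s) - v (c t)‖ ≤ (h + ε) * ‖s - t‖ := by
    have h2 := hc.continuous.continuousAt.eventually (hs ε hε)
    filter_upwards [h2] with s hs2
    rw [Real.norm_eq_abs, Real.norm_eq_abs]
    exact hs2.trans (mul_le_mul_of_nonneg_left (lip_dist hc s t) (by linarith))
  have := hd.le_of_lip' (by linarith) h1
  simpa using this

/-- the fundamental estimate: a Lipschitz function whose derivative along the curve is almost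
everywhere bounded by `h` increases by at most the integral of `h` -/
theorem sub_le_lintegral {φ : ℝ → ℝ} {T : ℝ} (hT : 0 ≤ T) {K : ℝ≥0}
    (hφ : LipschitzOnWith K φ (Icc 0 T)) {h : ℝ → ℝ}
    (hd : ∀ᵐ t : ℝ, t ∈ Ioo 0 T → DifferentiableAt ℝ φ t → deriv φ t ≤ h t) :
    ENNReal.ofReal (φ T - φ 0) ≤ ∫⁻ t in Icc 0 T, ENNReal.ofReal (h t) := by
  have hac : AbsolutelyContinuousOnInterval φ 0 T := by
    apply LipschitzOnWith.absolutelyContinuousOnInterval (K := K)
    rwa [uIcc_of_le hT]
  rw [← hac.integral_deriv_eq_sub, intervalIntegral.integral_of_le hT,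
    ← integral_Icc_eq_integral_Ioc]
  have hint : IntegrableOn (deriv φ) (Icc 0 T) := by
    have := hac.intervalIntegrable_deriv
    rw [intervalIntegrable_iff_integrableOn_Icc_of_le hT] at this
    exact this
  calc ENNReal.ofReal (∫ t in Icc 0 T, deriv φ t)
      ≤ ENNReal.ofReal (∫ t in Icc 0 T, max (deriv φ t) 0) := by
        apply ENNReal.ofReal_le_ofReal
        exact integral_mono hint (hint.pos_part) fun t => le_max_left _ _
    _ = ∫⁻ t in Icc 0 T, ENNReal.ofReal (max (deriv φ t) 0) := by
        apply ofReal_integral_eq_lintegral_ofReal hint.pos_part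
        exact Eventually.of_forall fun t => le_max_right _ _
    _ ≤ ∫⁻ t in Icc 0 T, ENNReal.ofReal (h t) := by
        rw [← restrict_Ioo_eq_restrict_Icc]
        apply lintegral_mono_ae
        rw [ae_restrict_iff' measurableSet_Ioo]
        have h2 := hac.ae_differentiableAt
        filter_upwards [hd, h2] with t h3 h4 h5
        have h6 : DifferentiableAt ℝ φ t := h4 (by
          rw [uIcc_of_le hT]; exact ⟨h5.1.le, h5.2.le⟩)
        have h7 := h3 h5 h6
        rw [ENNReal.ofReal_le_ofReal_iff']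
        rcases le_total (deriv φ t) 0 with h8 | h8
        · right; exact max_le h8 le_rfl
        · left; rw [max_eq_left h8]; exact h7

/-- clamp of `t` to `[0, l]` -/
noncomputable def clamp (l t : ℝ) : ℝ := max 0 (min t l)

theorem clamp_lip (l : ℝ) : LipschitzWith 1 (clamp l) := by
  unfold clamp
  exact (LipschitzWith.id.min_const l).const_max 0

/-- continue the curve `c` after time `T` along a segment of direction `v` for the time `l` -/
noncomputable def extend (c : ℝ → X) (T l : ℝ) (v : X) (t : ℝ) : X :=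
  c (min t T) + clamp l (t - T) • v

theorem clamp_of_nonpos {l t : ℝ} (hl : 0 ≤ l) (ht : t ≤ 0) : clamp l t = 0 := by
  unfold clamp
  rw [min_eq_left (ht.trans hl), max_eq_left ht]

theorem clamp_of_mem {l t : ℝ} (h0 : 0 ≤ t) (ht : t ≤ l) : clamp l t = t := by
  unfold clamp
  rw [min_eq_left ht, max_eq_right h0]

theorem extend_lip {c : ℝ → X} (hc : LipschitzWith 1 c) (T : ℝ) {l : ℝ} (hl : 0 ≤ l) {v : X}
    (hv : ‖v‖ ≤ 1) : LipschitzWith 1 (extend c T l v) := by
  apply LipschitzWith.of_dist_le_mul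
  have key : ∀ s t : ℝ, s ≤ t → dist (extend c T l v s) (extend c T l v t) ≤ t - s := by
    intro s t hst
    have h1 : ‖c (min s T) - c (min t T)‖ ≤ min t T - min s T := by
      refine (lip_dist hc _ _).trans ?_
      rw [abs_sub_comm, abs_of_nonneg]
      exact sub_nonneg.2 (min_le_min_right _ hst)
    have h2 : ‖(clamp l (s - T) - clamp l (t - T)) • v‖ ≤ max t T - max s T := by
      rw [norm_smul]
      have h3 : ‖clamp l (s - T) - clamp l (t - T)‖ ≤ max t T - max s T := by
        have h4 : ∀ z, clamp l (z - T) = clamp l (max z T - T) := by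
          intro z
          rcases le_total z T with h | h
          · rw [max_eq_right h, sub_self, clamp_of_nonpos hl (by linarith),
              clamp_of_nonpos hl le_rfl]
          · rw [max_eq_left h]
        rw [h4 s, h4 t]
        have := (clamp_lip l).dist_le_mul (max s T - T) (max t T - T)
        rw [NNReal.coe_one, one_mul, Real.dist_eq, Real.dist_eq] at this
        rw [Real.norm_eq_abs]
        refine this.trans ?_
        rw [abs_sub_comm, abs_of_nonneg]
        · linarith
        · have := max_le_max_right T hst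
          linarith
      calc _ ≤ (max t T - max s T) * 1 := by
            apply mul_le_mul h3 hv (norm_nonneg _)
            have := max_le_max_right T hst
            linarith
        _ = _ := mul_one _
    calc dist (extend c T l v s) (extend c T l v t)
        = ‖(c (min s T) - c (min t T)) + (clamp l (s - T) - clamp l (t - T)) • v‖ := by
          rw [dist_eq_norm]; unfold extend; congr 1; rw [sub_smul]; abel
      _ ≤ _ := norm_add_le _ _
      _ ≤ (min t T - min s T) + (max t T - max s T) := add_le_add h1 h2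
      _ = t - s := by
        have e1 := min_add_max t T
        have e2 := min_add_max s T
        linarith
  intro s t
  rw [NNReal.coe_one, one_mul, Real.dist_eq]
  rcases le_total s t with h | h
  · rw [abs_sub_comm, abs_of_nonneg (by linarith)]; exact key s t h
  · rw [dist_comm, abs_of_nonneg (by linarith)]; exact key t s h

variable (σ : X → ℝ) (A : Set X)

/-- costs of curves from `A` to `x` -/
def costs (x : X) : Set ℝ :=
  {a | ∃ (T : ℝ) (c : ℝ → X), IsCurve A {x} T c ∧ a = ∫ t in (0 : ℝ)..T, σ (c t)}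

/-- the distance function of the density `σ` from `A` -/
noncomputable def du (x : X) : ℝ := sInf (costs σ A x)

variable {σ A}

omit [NormedSpace ℝ X] in
theorem cost_nonneg (h0 : ∀ x, 0 ≤ σ x) {x : X} {a : ℝ} (ha : a ∈ costs σ A x) : 0 ≤ a := by
  obtain ⟨T, c, hc, rfl⟩ := ha
  exact intervalIntegral.integral_nonneg hc.nonneg fun t _ => h0 _

theorem costs_bddBelow (h0 : ∀ x, 0 ≤ σ x) (x : X) : BddBelow (costs σ A x) :=
  ⟨0, fun _ ha => cost_nonneg h0 ha⟩

theorem du_nonneg (h0 : ∀ x, 0 ≤ σ x) (x : X) : 0 ≤ du σ A x :=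
  Real.sInf_nonneg fun _ ha => cost_nonneg h0 ha

theorem zero_mem_costs {x : X} (hx : x ∈ A) : 0 ∈ costs σ A x :=
  ⟨0, fun _ => x, ⟨le_rfl, LipschitzWith.const' _, hx, rfl⟩, by simp⟩

theorem du_zero (h0 : ∀ x, 0 ≤ σ x) {x : X} (hx : x ∈ A) : du σ A x = 0 :=
  le_antisymm (csInf_le (costs_bddBelow h0 x) (zero_mem_costs hx)) (du_nonneg h0 x)

/-- extension of a curve by a segment -/
theorem costs_extend (hσ : Continuous σ) {x y : X} {a M : ℝ}
    (hM : ∀ z ∈ segment ℝ x y, σ z ≤ M) (ha : a ∈ costs σ A x) :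
    ∃ b ∈ costs σ A y, b ≤ a + M * ‖y - x‖ := by
  obtain ⟨T, c, hc, rfl⟩ := ha
  rcases eq_or_ne x y with rfl | hxy
  · exact ⟨_, ⟨T, c, hc, rfl⟩, by simp⟩
  have hl : 0 < ‖y - x‖ := norm_pos_iff.2 (sub_ne_zero.2 hxy.symm)
  set l := ‖y - x‖ with hldef
  set v : X := l⁻¹ • (y - x) with hv
  have hv1 : ‖v‖ ≤ 1 := by
    rw [hv, norm_smul, norm_inv, Real.norm_of_nonneg hl.le, ← hldef, inv_mul_cancel₀ hl.ne']
  have hlv : l • v = y - x := by rw [hv, smul_smul, mul_inv_cancel₀ hl.ne', one_smul]
  have hlip := extend_lip hc.lip T hl.le hv1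
  have hcx : c T = x := hc.fin
  refine ⟨_, ⟨T + l, extend c T l v, ⟨by linarith [hc.nonneg], hlip, ?_, ?_⟩, rfl⟩, ?_⟩
  · unfold extend
    rw [min_eq_left hc.nonneg, clamp_of_nonpos hl.le (by linarith [hc.nonneg]), zero_smul,
      add_zero]
    exact hc.start
  · unfold extend
    rw [min_eq_right (by linarith), clamp_of_mem (by linarith) (by linarith), hcx]
    have : (T + l - T) • v = y - x := by rw [add_sub_cancel_left, hlv]
    rw [this]; simp
  · have hcont : Continuous fun t => σ (extend c T l v t) := hσ.comp hlip.continuous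
    rw [← intervalIntegral.integral_add_adjacent_intervals
      (hcont.intervalIntegrable 0 T) (hcont.intervalIntegrable T (T + l))]
    have h1 : ∫ t in (0 : ℝ)..T, σ (extend c T l v t) = ∫ t in (0 : ℝ)..T, σ (c t) := by
      apply intervalIntegral.integral_congr
      intro t ht
      rw [uIcc_of_le hc.nonneg] at ht
      simp only
      unfold extend
      rw [min_eq_left ht.2, clamp_of_nonpos hl.le (by linarith [ht.2]), zero_smul, add_zero]
    rw [h1]
    have h2 : ∫ t in T..(T + l), σ (extend c T l v t) ≤ ∫ t in T..(T + l), M := by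
      apply intervalIntegral.integral_mono_on (by linarith) (hcont.intervalIntegrable _ _)
        (by simp)
      intro t ht
      apply hM
      unfold extend
      rw [min_eq_right ht.1, clamp_of_mem (by linarith [ht.1]) (by linarith [ht.2]), hcx]
      rw [segment_eq_image']
      refine ⟨(t - T) / l, ⟨div_nonneg (by linarith [ht.1]) hl.le,
        (div_le_one hl).2 (by linarith [ht.2])⟩, ?_⟩
      simp only
      rw [hv, smul_smul, div_eq_mul_inv]
    rw [intervalIntegral.integral_const] at h2
    simp only [add_sub_cancel_left, smul_eq_mul] at h2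
    linarith [mul_comm l M]

theorem costs_nonempty (hA : A.Nonempty) (hσ : Continuous σ) {K : ℝ} (hK : ∀ x, σ x ≤ K)
    (x : X) : (costs σ A x).Nonempty := by
  obtain ⟨a, ha⟩ := hA
  obtain ⟨b, hb, _⟩ := costs_extend (A := A) (x := a) (y := x) hσ (fun z _ => hK z)
    (zero_mem_costs ha)
  exact ⟨b, hb⟩

theorem du_le_add (hA : A.Nonempty) (hσ : Continuous σ) (h0 : ∀ x, 0 ≤ σ x) {K : ℝ}
    (hK : ∀ x, σ x ≤ K) {x y : X} {M : ℝ} (hM : ∀ z ∈ segment ℝ x y, σ z ≤ M) :
    du σ A y ≤ du σ A x + M * ‖y - x‖ := by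
  rw [← sub_le_iff_le_add]
  apply le_csInf (costs_nonempty hA hσ hK x)
  intro a ha
  obtain ⟨b, hb, hab⟩ := costs_extend hσ hM ha
  have := csInf_le (costs_bddBelow h0 y) hb
  change du σ A y ≤ b at this
  linarith

theorem du_lipschitz (hA : A.Nonempty) (hσ : Continuous σ) (h0 : ∀ x, 0 ≤ σ x) {K : ℝ}
    (hK : ∀ x, σ x ≤ K) (x y : X) : |du σ A y - du σ A x| ≤ K * ‖y - x‖ := by
  rw [abs_le]
  have h1 := du_le_add hA hσ h0 hK (x := x) (y := y) (fun z _ => hK z)
  have h2 := du_le_add hA hσ h0 hK (x := y) (y := x) (fun z _ => hK z)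
  rw [norm_sub_rev] at h2
  constructor <;> linarith

theorem du_slope (hA : A.Nonempty) (hσ : Continuous σ) (h0 : ∀ x, 0 ≤ σ x) {K : ℝ}
    (hK : ∀ x, σ x ≤ K) (x : X) : SlopeLE (du σ A) (σ x) x := by
  intro ε hε
  have h1 : ∀ᶠ y in 𝓝 x, σ y < σ x + ε := (hσ.tendsto x).eventually_lt_const (by linarith)
  obtain ⟨δ, hδ, hball⟩ := Metric.eventually_nhds_iff_ball.1 h1
  filter_upwards [Metric.ball_mem_nhds x hδ] with y hy
  have hseg : ∀ z ∈ segment ℝ x y, σ z ≤ σ x + ε := fun z hz =>
    (hball z ((convex_ball x δ).segment_subset (Metric.mem_ball_self hδ) hy hz)).le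
  rw [abs_le]
  have h2 := du_le_add hA hσ h0 hK (x := x) (y := y) hseg
  have h3 := du_le_add hA hσ h0 hK (x := y) (y := x) (by rw [segment_symm]; exact hseg)
  rw [norm_sub_rev] at h3
  constructor <;> linarith

/-- if all curves from `A` to `B` cost at least `η`, then `du ≥ η` on `B` -/
theorem le_du (hA : A.Nonempty) (hσ : Continuous σ) {K : ℝ}
    (hK : ∀ x, σ x ≤ K) {B : Set X} {η : ℝ}
    (h : ∀ T c, IsCurve A B T c → η ≤ ∫ t in (0 : ℝ)..T, σ (c t)) {x : X} (hx : x ∈ B) :
    η ≤ du σ A x := by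
  apply le_csInf (costs_nonempty hA hσ hK x)
  rintro a ⟨T, c, hc, rfl⟩
  refine h T c ⟨hc.nonneg, hc.lip, hc.start, ?_⟩
  rw [show c T = x from hc.fin]; exact hx

end Pool.Agent.K9h73.RM
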