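import Pool.Agent.K9h73.RM.Basic

/-!
# Compactness: a lower semicontinuous density is approximated by continuous ones without loss
-/

set_option autoImplicit false
set_option linter.unusedSectionVars false

open MeasureTheory Set Filter Topology
open scoped ENNReal NNReal BoundedContinuousFunction

namespace Pool.Agent.K9h73.RM

variable {X : Type*} [NormedAddCommGroup X] [NormedSpace ℝ X] [ProperSpace X]

/-- read a curve on `[0,1]` as a curve on the line -/
noncomputable def ext01 (f : unitInterval →ᵇ X) (t : ℝ) : X := f (projIcc 0 1 zero_le_one t)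

theorem ext01_cont (f : unitInterval →ᵇ X) : Continuous (ext01 f) := f.continuous.comp continuous_projIcc

/-- the compact set of curves -/
def curveSet (Λ R : ℝ) : Set (unitInterval →ᵇ X) :=
  {f | (∀ t, f t ∈ Metric.closedBall (0 : X) R) ∧ ∀ a b, dist (f a) (f b) ≤ Λ * dist a b}

theorem curveSet_closed (Λ R : ℝ) : IsClosed (curveSet Λ R : Set (unitInterval →ᵇ X)) := by
  unfold curveSet
  simp only [ofPred_and, ofPred_forall]
  refine IsClosed.inter (isClosed_iInter fun t => ?_)
    (isClosed_iInter fun a => isClosed_iInter fun b => ?_)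
  · exact Metric.isClosed_closedBall.preimage (continuous_eval_const t)
  · exact isClosed_le ((continuous_eval_const a).dist (continuous_eval_const b))
      continuous_const

theorem curveSet_compact {Λ R : ℝ} (hΛ : 0 ≤ Λ) : IsCompact (curveSet Λ R : Set (unitInterval →ᵇ X)) := by
  apply BoundedContinuousFunction.arzela_ascoli₂ (Metric.closedBall (0 : X) R)
    (isCompact_closedBall _ _) _ (curveSet_closed Λ R)
  · intro f x hf; exact hf.1 x
  · apply Metric.equicontinuous_of_continuity_modulus (fun d => Λ * d)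
    · have : Tendsto (fun d : ℝ => Λ * d) (𝓝 0) (𝓝 (Λ * 0)) :=
        tendsto_const_nhds.mul tendsto_id
      simpa using this
    · intro a b f
      exact f.2.2 a b

/-- the closed set of candidates -/
def cand (σ : X → ℝ) (E F : Set X) (Λ R η : ℝ) : Set ((unitInterval →ᵇ X) × ℝ) :=
  {p | p.1 ∈ curveSet Λ R ∧ p.2 ∈ Icc 0 Λ ∧ (∀ a b, dist (p.1 a) (p.1 b) ≤ p.2 * dist a b) ∧
    p.1 0 ∈ E ∧ p.1 1 ∈ F ∧ p.2 * ∫ t in (0 : ℝ)..1, σ (ext01 p.1 t) ≤ η}

theorem cost_continuous {σ : X → ℝ} (hσ : Continuous σ) (h0 : ∀ x, 0 ≤ σ x) {K : ℝ}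
    (hK : ∀ x, σ x ≤ K) :
    Continuous fun f : unitInterval →ᵇ X => ∫ t in (0 : ℝ)..1, σ (ext01 f t) := by
  apply intervalIntegral.continuous_of_dominated_interval (bound := fun _ => K)
  · intro f
    exact (hσ.comp (ext01_cont f)).aestronglyMeasurable
  · intro f
    refine Eventually.of_forall fun t _ => ?_
    rw [Real.norm_of_nonneg (h0 _)]; exact hK _
  · exact intervalIntegrable_const
  · refine Eventually.of_forall fun t _ => ?_
    exact hσ.comp (continuous_eval_const _)

theorem cand_closed {σ : X → ℝ} (hσ : Continuous σ) (h0 : ∀ x, 0 ≤ σ x) {K : ℝ}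
    (hK : ∀ x, σ x ≤ K) {E F : Set X} (hE : IsClosed E) (hF : IsClosed F) (Λ R η : ℝ) :
    IsClosed (cand σ E F Λ R η) := by
  unfold cand
  have e : ∀ a : unitInterval, Continuous fun p : (unitInterval →ᵇ X) × ℝ => p.1 a := fun a =>
    (continuous_eval_const a).comp continuous_fst
  simp only [ofPred_and, ofPred_forall]
  refine IsClosed.inter ((curveSet_closed Λ R).preimage continuous_fst) ?_
  refine IsClosed.inter (isClosed_Icc.preimage continuous_snd) ?_
  refine IsClosed.inter (isClosed_iInter fun a => isClosed_iInter fun b => ?_) ?_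
  · exact isClosed_le ((e a).dist (e b)) (continuous_snd.mul continuous_const)
  refine IsClosed.inter (hE.preimage (e 0)) ?_
  refine IsClosed.inter (hF.preimage (e 1)) ?_
  exact isClosed_le (continuous_snd.mul ((cost_continuous hσ h0 hK).comp continuous_fst))
    continuous_const

/-- the curve on `[0,T]` associated with a curve on `[0,1]` -/
noncomputable def unscale (f : unitInterval →ᵇ X) (T : ℝ) (s : ℝ) : X := ext01 f (s / T)

theorem dist_projIcc (a b : ℝ) : dist (projIcc (0 : ℝ) 1 zero_le_one a)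
    (projIcc (0 : ℝ) 1 zero_le_one b) ≤ |a - b| := by
  have h : LipschitzWith 1 (projIcc (0 : ℝ) 1 zero_le_one) := LipschitzWith.projIcc _
  have := h.dist_le_mul a b
  simpa [Real.dist_eq] using this

theorem unscale_lip {f : unitInterval →ᵇ X} {T : ℝ} (hT : 0 ≤ T)
    (hf : ∀ a b, dist (f a) (f b) ≤ T * dist a b) : LipschitzWith 1 (unscale f T) := by
  apply LipschitzWith.of_dist_le_mul
  intro a b
  unfold unscale ext01
  refine (hf _ _).trans ?_
  rw [NNReal.coe_one, one_mul, Real.dist_eq]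
  rcases eq_or_lt_of_le hT with rfl | hT
  · simp
  · calc _ ≤ T * |a / T - b / T| := mul_le_mul_of_nonneg_left (dist_projIcc _ _) hT.le
      _ = |a - b| := by
        rw [← sub_div, abs_div, abs_of_pos hT, mul_div_cancel₀ _ hT.ne']

theorem unscale_curve {f : unitInterval →ᵇ X} {T : ℝ} (hT : 0 ≤ T)
    (hf : ∀ a b, dist (f a) (f b) ≤ T * dist a b) {E F : Set X} (h0 : f 0 ∈ E) (h1 : f 1 ∈ F) :
    IsCurve E F T (unscale f T) := by
  refine ⟨hT, unscale_lip hT hf, ?_, ?_⟩
  · unfold unscale ext01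
    rw [zero_div, projIcc_left]; exact h0
  · unfold unscale ext01
    rcases eq_or_lt_of_le hT with rfl | hT
    · have h2 := hf 0 1
      rw [zero_mul] at h2
      have h3 : f 0 = f 1 := dist_le_zero.1 h2
      rw [div_zero, projIcc_left]
      have : (⟨0, left_mem_Icc.2 zero_le_one⟩ : unitInterval) = 0 := rfl
      rw [this, h3]; exact h1
    · rw [div_self hT.ne', projIcc_right]; exact h1

theorem unscale_cost {σ : X → ℝ} {f : unitInterval →ᵇ X} {T : ℝ} (hT : 0 ≤ T) :
    ∫ s in (0 : ℝ)..T, σ (unscale f T s) = T * ∫ t in (0 : ℝ)..1, σ (ext01 f t) := by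
  rcases eq_or_lt_of_le hT with rfl | hT
  · simp
  · unfold unscale
    rw [intervalIntegral.integral_comp_div (fun t => σ (ext01 f t)) hT.ne']
    simp [div_self hT.ne']

/-- the curve on `[0,1]` associated with a curve on `[0,T]` -/
noncomputable def rescale (c : ℝ → X) (hc : Continuous c) (T : ℝ) : unitInterval →ᵇ X :=
  BoundedContinuousFunction.mkOfCompact ⟨fun t : unitInterval => c (T * t), by fun_prop⟩

theorem rescale_cost {σ : X → ℝ} {c : ℝ → X} (hc : Continuous c) {T : ℝ} :
    T * ∫ t in (0 : ℝ)..1, σ (ext01 (rescale c hc T) t) = ∫ s in (0 : ℝ)..T, σ (c s) := by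
  have h1 : ∫ t in (0 : ℝ)..1, σ (ext01 (rescale c hc T) t) =
      ∫ t in (0 : ℝ)..1, σ (c (T * t)) := by
    apply intervalIntegral.integral_congr
    intro t ht
    rw [uIcc_of_le zero_le_one] at ht
    simp only [ext01, rescale, BoundedContinuousFunction.mkOfCompact_apply, ContinuousMap.coe_mk]
    rw [projIcc_of_mem zero_le_one ht]
  rw [h1]
  have := intervalIntegral.smul_integral_comp_mul_left (fun s => σ (c s)) (a := 0) (b := 1) T
  simpa using this

/-- the compactness lemma -/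
theorem exists_good {E F : Set X} (hE : IsClosed E) (hF : IsClosed F)
    {ρ : X → ℝ≥0∞} (hadm : ∀ T c, IsCurve E F T c → 1 ≤ ∫⁻ t in Icc 0 T, ρ (c t))
    {σ : ℕ → X → ℝ} (hσ : ∀ k, Continuous (σ k)) {w : X → ℝ} (hw : Continuous w)
    (hw0 : ∀ x, 0 ≤ w x) (hwσ : ∀ k x, w x ≤ σ k x) (hmono : ∀ x, Monotone fun k => σ k x)
    (hsup : ∀ x, ⨆ k : ℕ, ENNReal.ofReal (σ k x) = ρ x) (hbd : ∀ k, ∃ K, ∀ x, σ k x ≤ K)
    {R m : ℝ} (hm : 0 < m) (hwm : ∀ x ∈ Metric.closedBall (0 : X) R, m ≤ w x)
    (hesc : ∀ T c, LipschitzWith 1 c → 0 ≤ T → c 0 ∈ E → (∃ t ∈ Icc 0 T, R < ‖c t‖) →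
      1 ≤ ∫ t in (0 : ℝ)..T, w (c t)) {η : ℝ} (hη : η < 1) :
    ∃ k, ∀ T c, IsCurve E F T c → η ≤ ∫ t in (0 : ℝ)..T, σ k (c t) := by
  by_contra hcon
  push Not at hcon
  have hσ0 : ∀ k x, 0 ≤ σ k x := fun k x => (hw0 x).trans (hwσ k x)
  have hint : ∀ {v : X → ℝ} {c : ℝ → X} (a b : ℝ), Continuous v → LipschitzWith 1 c →
      IntervalIntegrable (fun t => v (c t)) volume a b := fun a b hv hc =>
    (hv.comp hc.continuous).intervalIntegrable a b
  set Λ := 1 / m with hΛ
  have hΛ0 : 0 ≤ Λ := by positivity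
  have hne : ∀ k, (cand (σ k) E F Λ R η).Nonempty := by
    intro k
    obtain ⟨T, c, hc, hcost⟩ := hcon k
    have hcw : ∫ t in (0 : ℝ)..T, w (c t) ≤ ∫ t in (0 : ℝ)..T, σ k (c t) :=
      intervalIntegral.integral_mono hc.nonneg (hint _ _ hw hc.lip)
        (hint _ _ (hσ k) hc.lip) fun t => hwσ k _
    have hin : ∀ t ∈ Icc 0 T, c t ∈ Metric.closedBall (0 : X) R := by
      intro t ht
      rw [mem_closedBall_zero_iff]
      by_contra h
      have := hesc T c hc.lip hc.nonneg hc.start ⟨t, ht, not_le.1 h⟩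
      linarith
    have hTm : T * m ≤ 1 := by
      have h1 : ∫ t in (0 : ℝ)..T, m ≤ ∫ t in (0 : ℝ)..T, w (c t) := by
        apply intervalIntegral.integral_mono_on hc.nonneg (by simp) (hint _ _ hw hc.lip)
        intro t ht
        exact hwm _ (hin t ht)
      rw [intervalIntegral.integral_const, sub_zero, smul_eq_mul] at h1
      linarith
    have hTΛ : T ≤ Λ := by rw [hΛ, le_div_iff₀ hm]; exact hTm
    have hdist : ∀ a b : unitInterval, dist (rescale c hc.lip.continuous T a)
        (rescale c hc.lip.continuous T b) ≤ T * dist a b := by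
      intro a b
      have h1 : dist (c (T * a)) (c (T * b)) ≤ |T * a - T * b| := by
        rw [dist_eq_norm]; exact lip_dist hc.lip _ _
      have h2 : |T * (a : ℝ) - T * b| = T * dist a b := by
        rw [← mul_sub, abs_mul, abs_of_nonneg hc.nonneg]; rfl
      rw [← h2]; exact h1
    refine ⟨(rescale c hc.lip.continuous T, T), ⟨fun t => ?_, fun a b => ?_⟩,
      ⟨hc.nonneg, hTΛ⟩, hdist, ?_, ?_, ?_⟩
    · exact hin _ ⟨mul_nonneg hc.nonneg t.2.1, mul_le_of_le_one_right hc.nonneg t.2.2⟩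
    · exact (hdist a b).trans (mul_le_mul_of_nonneg_right hTΛ dist_nonneg)
    · show c (T * ((0 : unitInterval) : ℝ)) ∈ E
      simpa using hc.start
    · show c (T * ((1 : unitInterval) : ℝ)) ∈ F
      simpa using hc.fin
    · show T * ∫ t in (0 : ℝ)..1, σ k (ext01 (rescale c hc.lip.continuous T) t) ≤ η
      rw [rescale_cost]; exact hcost.le
  have hcl : ∀ k, IsClosed (cand (σ k) E F Λ R η) := fun k => by
    obtain ⟨K, hK⟩ := hbd k
    exact cand_closed (hσ k) (hσ0 k) hK hE hF Λ R η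
  have hsub : ∀ k, cand (σ (k + 1)) E F Λ R η ⊆ cand (σ k) E F Λ R η := by
    rintro k ⟨f, T⟩ ⟨h1, h2, h3, h4, h5, h6⟩
    refine ⟨h1, h2, h3, h4, h5, le_trans ?_ h6⟩
    apply mul_le_mul_of_nonneg_left _ h2.1
    apply intervalIntegral.integral_mono zero_le_one
      (((hσ k).comp (ext01_cont f)).intervalIntegrable 0 1)
      (((hσ (k + 1)).comp (ext01_cont f)).intervalIntegrable 0 1)
    intro t
    exact hmono _ (Nat.le_succ k)
  have hcomp : IsCompact (cand (σ 0) E F Λ R η) := by
    apply ((curveSet_compact hΛ0).prod isCompact_Icc).of_isClosed_subset (hcl 0)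
    rintro ⟨f, T⟩ ⟨h1, h2, _⟩
    exact ⟨h1, h2⟩
  obtain ⟨⟨f, T⟩, hfT⟩ := IsCompact.nonempty_iInter_of_sequence_nonempty_isCompact_isClosed
    (fun k => cand (σ k) E F Λ R η) hsub hne hcomp hcl
  rw [mem_iInter] at hfT
  obtain ⟨_, hT, hd, hfE, hfF, _⟩ := hfT 0
  have hcurve := unscale_curve hT.1 hd hfE hfF
  have h1 := hadm T _ hcurve
  have h2 : ∫⁻ t in Icc 0 T, ρ (unscale f T t) =
      ⨆ k, ∫⁻ t in Icc 0 T, ENNReal.ofReal (σ k (unscale f T t)) := by
    rw [← lintegral_iSup]
    · apply lintegral_congr; intro t; exact (hsup _).symm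
    · intro k
      exact ((hσ k).comp hcurve.lip.continuous).measurable.ennreal_ofReal
    · intro j k hjk t
      exact ENNReal.ofReal_le_ofReal (hmono _ hjk)
  have h3 : ∀ k, ∫⁻ t in Icc 0 T, ENNReal.ofReal (σ k (unscale f T t)) ≤ ENNReal.ofReal η := by
    intro k
    obtain ⟨_, _, _, _, _, h6⟩ := hfT k
    rw [← ofReal_integral_eq_lintegral_ofReal]
    · apply ENNReal.ofReal_le_ofReal
      rw [integral_Icc_eq_integral_Ioc, ← intervalIntegral.integral_of_le hT.1,
        unscale_cost hT.1]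
      exact h6
    · have := ((hσ k).comp hcurve.lip.continuous).continuousOn.integrableOn_Icc
        (a := (0 : ℝ)) (b := T) (μ := volume)
      exact this
    · exact Eventually.of_forall fun t => hσ0 k _
  have h4 : (1 : ℝ≥0∞) ≤ ENNReal.ofReal η := by
    calc (1 : ℝ≥0∞) ≤ _ := h1
      _ = _ := h2
      _ ≤ _ := iSup_le h3
  rw [ENNReal.one_le_ofReal] at h4
  linarith

end Pool.Agent.K9h73.RM
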