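import Pool.Agent.K9h73.RM.Basic

/-!
# A radial density of small norm which no curve can afford to take far away
-/

set_option autoImplicit false
set_option linter.unusedSectionVars false

open MeasureTheory Set Filter Topology
open scoped ENNReal NNReal

namespace Pool.Agent.K9h73.RM

/-- the radial profile -/
noncomputable def wf (a R t : ℝ) : ℝ := a / (1 + |t|) * max 0 (min 1 (R + 1 - t))

theorem wf_cont (a R : ℝ) : Continuous (wf a R) := by
  unfold wf
  apply Continuous.mul
  · apply Continuous.div continuous_const (by fun_prop)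
    intro t; positivity
  · fun_prop

theorem wf_nonneg {a : ℝ} (ha : 0 ≤ a) (R t : ℝ) : 0 ≤ wf a R t := by
  unfold wf; positivity

theorem wf_le {a : ℝ} (ha : 0 ≤ a) (R t : ℝ) : wf a R t ≤ a / (1 + |t|) := by
  unfold wf
  apply mul_le_of_le_one_right (by positivity)
  exact max_le zero_le_one (min_le_left _ _)

theorem wf_le' {a : ℝ} (ha : 0 ≤ a) (R t : ℝ) : wf a R t ≤ a := by
  refine (wf_le ha R t).trans (div_le_self ha ?_)
  linarith [abs_nonneg t]

theorem wf_eq {a R t : ℝ} (h0 : 0 ≤ t) (h : t ≤ R) : wf a R t = a / (1 + t) := by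
  unfold wf
  rw [abs_of_nonneg h0, min_eq_left (by linarith), max_eq_right zero_le_one, mul_one]

theorem wf_zero {a R t : ℝ} (h : R + 1 ≤ t) : wf a R t = 0 := by
  unfold wf
  rw [max_eq_left, mul_zero]
  exact (min_le_right _ _).trans (by linarith)

variable {X : Type*} [NormedAddCommGroup X] [NormedSpace ℝ X]

/-- the logarithmic potential -/
noncomputable def vlog (a R : ℝ) (x : X) : ℝ := a * Real.log (1 + min ‖x‖ R)

theorem log_sub_le {p q : ℝ} (hp : 0 ≤ p) (hq : 0 ≤ q) :
    Real.log (1 + q) - Real.log (1 + p) ≤ |q - p| / (1 + p) := by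
  rw [← Real.log_div (by positivity) (by positivity)]
  have h1 : 0 < (1 + q) / (1 + p) := by positivity
  refine (Real.log_le_sub_one_of_pos h1).trans ?_
  rw [div_sub_one (by positivity)]
  apply div_le_div_of_nonneg_right _ (by positivity)
  have := le_abs_self (q - p)
  linarith

theorem abs_log_sub_le {p q : ℝ} (hp : 0 ≤ p) (hq : 0 ≤ q) :
    |Real.log (1 + q) - Real.log (1 + p)| ≤ |q - p| * max (1 / (1 + p)) (1 / (1 + q)) := by
  have h1 := log_sub_le hp hq
  have h2 := log_sub_le hq hp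
  rw [abs_sub_comm] at h2
  have e1 : |q - p| / (1 + p) ≤ |q - p| * max (1 / (1 + p)) (1 / (1 + q)) := by
    rw [div_eq_mul_one_div]
    exact mul_le_mul_of_nonneg_left (le_max_left _ _) (abs_nonneg _)
  have e2 : |q - p| / (1 + q) ≤ |q - p| * max (1 / (1 + p)) (1 / (1 + q)) := by
    rw [div_eq_mul_one_div]
    exact mul_le_mul_of_nonneg_left (le_max_right _ _) (abs_nonneg _)
  rw [abs_le]
  constructor <;> linarith

theorem min_norm_lip (R : ℝ) (x y : X) : |min ‖y‖ R - min ‖x‖ R| ≤ ‖y - x‖ := by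
  refine (abs_min_sub_min_le_max _ _ _ _).trans ?_
  rw [sub_self, abs_zero]
  exact max_le (abs_norm_sub_norm_le y x) (norm_nonneg _)

theorem vlog_slope {a R : ℝ} (ha : 0 < a) (hR : 0 ≤ R) (x : X) :
    SlopeLE (vlog a R) (wf a R ‖x‖) x := by
  intro ε hε
  rcases le_or_gt ‖x‖ R with hx | hx
  · rw [wf_eq (norm_nonneg x) hx]
    have hcont : Continuous fun y : X => 1 / (1 + min ‖y‖ R) := by
      apply Continuous.div continuous_const (by fun_prop)
      intro y
      have : 0 ≤ min ‖y‖ R := le_min (norm_nonneg y) hR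
      positivity
    have h1 : ∀ᶠ y in 𝓝 x, 1 / (1 + min ‖y‖ R) < 1 / (1 + min ‖x‖ R) + ε / a :=
      (hcont.tendsto x).eventually_lt_const (by
        have : 0 < ε / a := by positivity
        linarith)
    filter_upwards [h1] with y hy
    have hpx : 0 ≤ min ‖x‖ R := le_min (norm_nonneg x) hR
    have hpy : 0 ≤ min ‖y‖ R := le_min (norm_nonneg y) hR
    have h2 := abs_log_sub_le hpx hpy
    have h3 : max (1 / (1 + min ‖x‖ R)) (1 / (1 + min ‖y‖ R)) ≤ 1 / (1 + min ‖x‖ R) + ε / a := by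
      apply max_le _ hy.le
      have : 0 < ε / a := by positivity
      linarith
    have h4 : |vlog a R y - vlog a R x| ≤
        a * (‖y - x‖ * (1 / (1 + min ‖x‖ R) + ε / a)) := by
      unfold vlog
      rw [← mul_sub, abs_mul, abs_of_pos ha]
      apply mul_le_mul_of_nonneg_left _ ha.le
      refine h2.trans ?_
      apply mul_le_mul (min_norm_lip R x y) h3
      · exact le_max_of_le_left (by positivity)
      · exact norm_nonneg _
    refine h4.trans (le_of_eq ?_)
    rw [min_eq_left hx]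
    field_simp
  · have h1 : ∀ᶠ y in 𝓝 x, R < ‖y‖ := (continuous_norm.tendsto x).eventually_const_lt hx
    filter_upwards [h1] with y hy
    unfold vlog
    rw [min_eq_right hy.le, min_eq_right hx.le, sub_self, abs_zero]
    have := wf_nonneg ha.le R ‖x‖
    positivity

theorem vlog_lip {a R : ℝ} (ha : 0 < a) (hR : 0 ≤ R) (x y : X) :
    |vlog a R y - vlog a R x| ≤ a * ‖y - x‖ := by
  have hpx : 0 ≤ min ‖x‖ R := le_min (norm_nonneg x) hR
  have hpy : 0 ≤ min ‖y‖ R := le_min (norm_nonneg y) hR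
  have h2 := abs_log_sub_le hpx hpy
  unfold vlog
  rw [← mul_sub, abs_mul, abs_of_pos ha]
  apply mul_le_mul_of_nonneg_left _ ha.le
  refine h2.trans ?_
  have h3 : max (1 / (1 + min ‖x‖ R)) (1 / (1 + min ‖y‖ R)) ≤ 1 := by
    apply max_le <;> rw [div_le_one (by positivity)] <;> linarith
  calc _ ≤ ‖y - x‖ * 1 := mul_le_mul (min_norm_lip R x y) h3
        (le_max_of_le_left (by positivity)) (norm_nonneg _)
    _ = _ := mul_one _

/-- a curve which starts in the ball of radius `R₀` and leaves the ball of radius `R` is long -/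
theorem escape_lintegral {a R R₀ : ℝ} (hR0 : 0 ≤ R₀) (hR : R₀ ≤ R) (ha : 0 < a)
    (ha' : a * (Real.log (1 + R) - Real.log (1 + R₀)) = 1) {T : ℝ} {c : ℝ → X}
    (hc : LipschitzWith 1 c) (hc0 : ‖c 0‖ ≤ R₀) (hex : ∃ t ∈ Icc 0 T, R ≤ ‖c t‖) :
    1 ≤ ∫⁻ t in Icc 0 T, ENNReal.ofReal (wf a R ‖c t‖) := by
  obtain ⟨T', hT', hcT⟩ := hex
  have hR' : 0 ≤ R := hR0.trans hR
  have hLip : LipschitzOnWith a.toNNReal (fun t => vlog a R (c t)) (Icc 0 T') := by
    apply LipschitzOnWith.of_dist_le_mul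
    intro p _ q _
    rw [Real.dist_eq, Real.dist_eq, Real.coe_toNNReal _ ha.le]
    exact (vlog_lip ha hR' (c q) (c p)).trans
      (mul_le_mul_of_nonneg_left (lip_dist hc p q) ha.le)
  have hmain := sub_le_lintegral hT'.1 hLip (h := fun t => wf a R ‖c t‖)
    (Eventually.of_forall fun t _ h => (le_abs_self _).trans
      (SlopeLE.deriv_le (wf_nonneg ha.le R _) (vlog_slope ha hR' (c t)) hc h.hasDerivAt))
  have h1 : (1 : ℝ) ≤ vlog a R (c T') - vlog a R (c 0) := by
    have e1 : vlog a R (c T') = a * Real.log (1 + R) := by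
      unfold vlog; rw [min_eq_right hcT]
    have e2 : vlog a R (c 0) ≤ a * Real.log (1 + R₀) := by
      unfold vlog
      apply mul_le_mul_of_nonneg_left _ ha.le
      have : 0 ≤ min ‖c 0‖ R := le_min (norm_nonneg _) hR'
      apply Real.log_le_log (by positivity)
      have := (min_le_left ‖c 0‖ R).trans hc0
      linarith
    rw [e1]
    linarith [mul_sub a (Real.log (1 + R)) (Real.log (1 + R₀))]
  calc (1 : ℝ≥0∞) ≤ ENNReal.ofReal (vlog a R (c T') - vlog a R (c 0)) := by
        rwa [ENNReal.one_le_ofReal]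
    _ ≤ _ := hmain
    _ ≤ _ := lintegral_mono_set (Icc_subset_Icc_right hT'.2)

theorem escape_integral {a R R₀ : ℝ} (hR0 : 0 ≤ R₀) (hR : R₀ ≤ R) (ha : 0 < a)
    (ha' : a * (Real.log (1 + R) - Real.log (1 + R₀)) = 1) {T : ℝ} {c : ℝ → X} (hT : 0 ≤ T)
    (hc : LipschitzWith 1 c) (hc0 : ‖c 0‖ ≤ R₀) (hex : ∃ t ∈ Icc 0 T, R ≤ ‖c t‖) :
    1 ≤ ∫ t in (0 : ℝ)..T, wf a R ‖c t‖ := by
  have h := escape_lintegral hR0 hR ha ha' hc hc0 hex
  have hcont : Continuous fun t => wf a R ‖c t‖ := (wf_cont a R).comp hc.continuous.norm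
  rw [← ofReal_integral_eq_lintegral_ofReal
    (hcont.continuousOn.integrableOn_Icc (a := (0 : ℝ)) (b := T) (μ := volume))
    (Eventually.of_forall fun t => wf_nonneg ha.le R _), ENNReal.one_le_ofReal,
    integral_Icc_eq_integral_Ioc, ← intervalIntegral.integral_of_le hT] at h
  exact h

section
variable [FiniteDimensional ℝ X] [MeasurableSpace X] [BorelSpace X] [Nontrivial X]
  (μ : Measure X) [μ.IsAddHaarMeasure]

theorem wf_lintegral_le {a R : ℝ} (ha : 0 ≤ a) (hR : 0 ≤ R) {n : ℕ}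
    (hn : Module.finrank ℝ X = n) (hn0 : n ≠ 0) :
    ∫⁻ x, ENNReal.ofReal (wf a R ‖x‖) ^ n ∂μ ≤
      ENNReal.ofReal (n * μ.real (Metric.ball 0 1) * (a ^ n * Real.log (R + 2))) := by
  have hcs : HasCompactSupport fun x : X => wf a R ‖x‖ ^ n := by
    apply HasCompactSupport.of_support_subset_isCompact (isCompact_closedBall (0 : X) (R + 1))
    intro x hx
    rw [mem_closedBall_zero_iff]
    by_contra h
    apply hx
    simp only
    rw [wf_zero (not_le.1 h).le, zero_pow hn0]
  have hcont : Continuous fun x : X => wf a R ‖x‖ ^ n :=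
    ((wf_cont a R).comp continuous_norm).pow n
  have h1 : ∫⁻ x, ENNReal.ofReal (wf a R ‖x‖) ^ n ∂μ =
      ENNReal.ofReal (∫ x, wf a R ‖x‖ ^ n ∂μ) := by
    rw [ofReal_integral_eq_lintegral_ofReal (hcont.integrable_of_hasCompactSupport hcs)
      (Eventually.of_forall fun x => pow_nonneg (wf_nonneg ha R _) n)]
    apply lintegral_congr
    intro x
    rw [ENNReal.ofReal_pow (wf_nonneg ha R _)]
  rw [h1]
  apply ENNReal.ofReal_le_ofReal
  rw [integral_fun_norm_addHaar μ (fun t => wf a R t ^ n), hn, nsmul_eq_mul, smul_eq_mul,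
    mul_assoc]
  apply mul_le_mul_of_nonneg_left _ (Nat.cast_nonneg n)
  apply mul_le_mul_of_nonneg_left _ measureReal_nonneg
  have h2 : ∫ y in Ioi (0 : ℝ), y ^ (n - 1) • wf a R y ^ n =
      ∫ y in Ioc (0 : ℝ) (R + 1), y ^ (n - 1) • wf a R y ^ n := by
    apply setIntegral_eq_of_subset_of_forall_diff_eq_zero measurableSet_Ioi
      (fun y hy => hy.1)
    rintro y ⟨hy1, hy2⟩
    have hy3 : R + 1 ≤ y := by
      by_contra h
      exact hy2 ⟨hy1, (not_le.1 h).le⟩
    rw [wf_zero hy3, zero_pow hn0, smul_zero]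
  rw [h2]
  have h3 : ∫ y in Ioc (0 : ℝ) (R + 1), y ^ (n - 1) • wf a R y ^ n ≤
      ∫ y in Ioc (0 : ℝ) (R + 1), a ^ n * (1 + y)⁻¹ := by
    apply setIntegral_mono_on
    · have hc2 : Continuous fun y : ℝ => y ^ (n - 1) • wf a R y ^ n :=
        (continuous_pow _).smul ((wf_cont a R).pow n)
      exact (hc2.continuousOn.integrableOn_Icc (a := (0 : ℝ)) (b := R + 1)).mono_set
        Ioc_subset_Icc_self
    · have hc3 : ContinuousOn (fun y : ℝ => a ^ n * (1 + y)⁻¹) (Icc 0 (R + 1)) := by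
        apply continuousOn_const.mul
        apply ContinuousOn.inv₀ (by fun_prop)
        intro y hy
        have := hy.1
        positivity
      exact hc3.integrableOn_Icc.mono_set Ioc_subset_Icc_self
    · exact measurableSet_Ioc
    · intro y hy
      have hy0 : 0 < y := hy.1
      have e1 : wf a R y ^ n ≤ (a / (1 + y)) ^ n := by
        apply pow_le_pow_left₀ (wf_nonneg ha R y)
        have := wf_le ha R y
        rwa [abs_of_pos hy0] at this
      have e2 : y ^ (n - 1) ≤ (1 + y) ^ (n - 1) :=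
        pow_le_pow_left₀ hy0.le (by linarith) _
      rw [smul_eq_mul]
      calc y ^ (n - 1) * wf a R y ^ n ≤ (1 + y) ^ (n - 1) * (a / (1 + y)) ^ n :=
            mul_le_mul e2 e1 (pow_nonneg (wf_nonneg ha R y) n) (by positivity)
        _ = a ^ n * (1 + y)⁻¹ := by
          rw [div_pow]
          have : (1 + y) ^ n = (1 + y) ^ (n - 1) * (1 + y) := by
            rw [← pow_succ, Nat.sub_add_cancel (Nat.one_le_iff_ne_zero.2 hn0)]
          rw [this]
          field_simp
  refine h3.trans ?_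
  rw [integral_const_mul, ← intervalIntegral.integral_of_le (by linarith)]
  have h4 : ∫ y in (0 : ℝ)..(R + 1), (1 + y)⁻¹ = Real.log (R + 2) := by
    rw [intervalIntegral.integral_comp_add_left (fun y => y⁻¹) 1]
    rw [integral_inv_of_pos (by norm_num) (by linarith)]
    norm_num
    ring_nf
  rw [h4]

theorem exists_confine (n : ℕ) (hn : Module.finrank ℝ X = n) (hn2 : 2 ≤ n) {R₀ : ℝ}
    (hR₀ : 0 ≤ R₀) {ε : ℝ} (hε : 0 < ε) :
    ∃ a R : ℝ, 0 < a ∧ R₀ < R ∧ a * (Real.log (1 + R) - Real.log (1 + R₀)) = 1 ∧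
      ∫⁻ x, ENNReal.ofReal (wf a R ‖x‖) ^ n ∂μ ≤ ENNReal.ofReal ε := by
  set l0 := Real.log (1 + R₀) with hl0
  have hl0' : 0 ≤ l0 := Real.log_nonneg (by linarith)
  set C := n * μ.real (Metric.ball (0 : X) 1) with hC
  have hC0 : 0 ≤ C := by positivity
  obtain ⟨M, hM1, hM2⟩ : ∃ M : ℝ, 1 ≤ M ∧ C * (2 + l0) / ε ≤ M :=
    ⟨max 1 (C * (2 + l0) / ε), le_max_left _ _, le_max_right _ _⟩
  have hM0 : 0 < M := by linarith
  set R := Real.exp (l0 + M) - 1 with hR
  have e1 : Real.log (1 + R) = l0 + M := by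
    rw [hR, add_sub_cancel, Real.log_exp]
  have hexp : 1 + R₀ < Real.exp (l0 + M) := by
    rw [Real.exp_add, hl0, Real.exp_log (by linarith)]
    have : 1 < Real.exp M := by rw [Real.one_lt_exp_iff]; exact hM0
    nlinarith
  have hRR : R₀ < R := by rw [hR]; linarith
  refine ⟨1 / M, R, by positivity, hRR, ?_, ?_⟩
  · rw [e1]; field_simp; ring
  · refine (wf_lintegral_le μ (by positivity) (by linarith) hn (by omega)).trans ?_
    apply ENNReal.ofReal_le_ofReal
    rw [← hC]
    have h1 : Real.log (R + 2) ≤ 1 + l0 + M := by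
      have : R + 2 ≤ Real.exp 1 * (1 + R) := by
        have h2 : (2 : ℝ) ≤ Real.exp 1 := by
          have := Real.add_one_le_exp (1 : ℝ); linarith
        nlinarith
      calc Real.log (R + 2) ≤ Real.log (Real.exp 1 * (1 + R)) :=
            Real.log_le_log (by linarith) this
        _ = 1 + (l0 + M) := by
          rw [Real.log_mul (Real.exp_pos 1).ne' (by linarith), Real.log_exp, e1]
        _ = _ := by ring
    have h2 : (1 / M) ^ n ≤ (1 / M) ^ 2 :=
      pow_le_pow_of_le_one (by positivity) (by rw [div_le_one hM0]; exact hM1) hn2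
    have h3 : (1 / M) ^ n * Real.log (R + 2) ≤ (2 + l0) / M := by
      calc (1 / M) ^ n * Real.log (R + 2) ≤ (1 / M) ^ 2 * (1 + l0 + M) := by
            apply mul_le_mul h2 h1 (Real.log_nonneg (by linarith)) (by positivity)
        _ ≤ (1 / M) ^ 2 * ((2 + l0) * M) := by
            apply mul_le_mul_of_nonneg_left _ (by positivity)
            nlinarith
        _ = (2 + l0) / M := by field_simp
    calc C * ((1 / M) ^ n * Real.log (R + 2)) ≤ C * ((2 + l0) / M) :=
          mul_le_mul_of_nonneg_left h3 hC0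
      _ = C * (2 + l0) / M := by ring
      _ ≤ ε := by
        rw [div_le_iff₀ hM0]
        rw [div_le_iff₀ hε] at hM2
        linarith

end

end Pool.Agent.K9h73.RM
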