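import Pool.Agent.K9h73.RM.Polar
import Pool.Agent.K9h73.RM.Approx
import Pool.Agent.K9h73.RM.Compact
import Pool.Agent.K9h73.RM.Confine

/-!
# The reflection inequality in terms of 1-Lipschitz curves
-/

set_option autoImplicit false
set_option linter.unusedSectionVars false

open MeasureTheory Set Filter Topology
open scoped ENNReal NNReal

namespace Pool.Agent.K9h73.RM

variable {X : Type*} [NormedAddCommGroup X] [NormedSpace ℝ X] [FiniteDimensional ℝ X]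
  [MeasurableSpace X] [BorelSpace X] [Nontrivial X] (μ : Measure X) [μ.IsAddHaarMeasure]

theorem minkowski_pow {n : ℕ} (hn : 1 ≤ n) {f g : X → ℝ≥0∞} (hf : Measurable f)
    (hg : Measurable g) :
    ∫⁻ x, (f x + g x) ^ n ∂μ ≤
      ((∫⁻ x, f x ^ n ∂μ) ^ (1 / (n : ℝ)) + (∫⁻ x, g x ^ n ∂μ) ^ (1 / (n : ℝ))) ^ n := by
  have hn' : (1 : ℝ) ≤ n := by exact_mod_cast hn
  have hn0 : (n : ℝ) ≠ 0 := by positivity
  have h := ENNReal.lintegral_Lp_add_le (μ := μ) hf.aemeasurable hg.aemeasurable hn'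
  simp only [Pi.add_apply, ENNReal.rpow_natCast] at h
  have h2 := pow_le_pow_left₀ zero_le h n
  rw [← ENNReal.rpow_natCast, ← ENNReal.rpow_mul, one_div, inv_mul_cancel₀ hn0,
    ENNReal.rpow_one] at h2
  rw [one_div]
  exact h2

/-- a density of slightly larger norm lying above the sum of `ρ` and a confining density -/
theorem exists_lsc {n : ℕ} (hfin : Module.finrank ℝ X = n) (hn : 2 ≤ n) {ρ : X → ℝ≥0∞}
    (hρ : Measurable ρ) {b : ℝ≥0∞} (hb : ∫⁻ x, ρ x ^ n ∂μ < b) {R₀ : ℝ} (hR₀ : 0 ≤ R₀) :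
    ∃ (a R : ℝ) (ρ1 : X → ℝ≥0∞), 0 < a ∧ R₀ < R ∧
      a * (Real.log (1 + R) - Real.log (1 + R₀)) = 1 ∧ LowerSemicontinuous ρ1 ∧
      (∀ x, ρ x ≤ ρ1 x) ∧ (∀ x, ENNReal.ofReal (wf a R ‖x‖) ≤ ρ1 x) ∧
      ∫⁻ x, ρ1 x ^ n ∂μ < b := by
  have hn0 : n ≠ 0 := by omega
  have hn0' : (n : ℝ) ≠ 0 := by exact_mod_cast hn0
  set B := ∫⁻ x, ρ x ^ n ∂μ with hB
  obtain ⟨b', hb1, hb2⟩ := exists_between hb
  -- small confining density
  have hcont : Tendsto (fun ε : ℝ => (B ^ (1 / (n : ℝ)) + (ENNReal.ofReal ε) ^ (1 / (n : ℝ))) ^ n)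
      (𝓝[>] 0) (𝓝 B) := by
    have h0 : (B ^ (1 / (n : ℝ)) + (ENNReal.ofReal 0) ^ (1 / (n : ℝ))) ^ n = B := by
      rw [ENNReal.ofReal_zero, ENNReal.zero_rpow_of_pos (by positivity), add_zero,
        ← ENNReal.rpow_natCast, ← ENNReal.rpow_mul, one_div, inv_mul_cancel₀ hn0',
        ENNReal.rpow_one]
    have h1 : Tendsto (fun ε : ℝ => (B ^ (1 / (n : ℝ)) +
        (ENNReal.ofReal ε) ^ (1 / (n : ℝ))) ^ n) (𝓝 0)
        (𝓝 ((B ^ (1 / (n : ℝ)) + (ENNReal.ofReal 0) ^ (1 / (n : ℝ))) ^ n)) := by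
      apply ENNReal.Tendsto.pow
      apply Tendsto.add tendsto_const_nhds
      exact ((ENNReal.continuous_rpow_const).tendsto _).comp
        (ENNReal.continuous_ofReal.tendsto 0)
    rw [h0] at h1
    exact h1.mono_left nhdsWithin_le_nhds
  obtain ⟨ε, hε1, hε2⟩ := ((hcont.eventually_lt_const hb1).and self_mem_nhdsWithin).exists
  obtain ⟨a, R, ha, hR, haR, hsmall⟩ := exists_confine μ n hfin hn hR₀ (ε := ε) hε2
  have hwm : Measurable fun x : X => ENNReal.ofReal (wf a R ‖x‖) :=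
    ((wf_cont a R).comp continuous_norm).measurable.ennreal_ofReal
  have hsum : ∫⁻ x, (ρ x + ENNReal.ofReal (wf a R ‖x‖)) ^ n ∂μ < b' := by
    refine lt_of_le_of_lt (minkowski_pow μ (by omega) hρ hwm) (lt_of_le_of_lt ?_ hε1)
    apply pow_le_pow_left₀ zero_le
    apply add_le_add_right
    exact ENNReal.rpow_le_rpow hsmall (by positivity)
  have hd : b - b' ≠ 0 := (tsub_pos_of_lt hb2).ne'
  obtain ⟨d, hd0, hd1⟩ := exists_between (tsub_pos_of_lt hb2)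
  obtain ⟨g, hg1, hg2, hg3⟩ := exists_le_lowerSemicontinuous_lintegral_ge μ
    (fun x => (ρ x + ENNReal.ofReal (wf a R ‖x‖)) ^ n) ((hρ.add hwm).pow_const n)
    (ε := d) hd0.ne'
  have hroot : ∀ x, ρ x + ENNReal.ofReal (wf a R ‖x‖) ≤ g x ^ (1 / (n : ℝ)) := by
    intro x
    have h1 := ENNReal.rpow_le_rpow (hg1 x) (z := 1 / (n : ℝ)) (by positivity)
    rwa [← ENNReal.rpow_natCast, ← ENNReal.rpow_mul, mul_one_div, div_self hn0',
      ENNReal.rpow_one] at h1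
  refine ⟨a, R, fun x => g x ^ (1 / (n : ℝ)), ha, hR, haR, ?_, ?_, ?_, ?_⟩
  · exact (ENNReal.continuous_rpow_const).comp_lowerSemicontinuous hg2
      (ENNReal.monotone_rpow_of_nonneg (by positivity))
  · intro x; exact le_trans le_self_add (hroot x)
  · intro x; exact le_trans le_add_self (hroot x)
  · have : ∀ x, (g x ^ (1 / (n : ℝ))) ^ n = g x := by
      intro x
      rw [← ENNReal.rpow_natCast, ← ENNReal.rpow_mul, one_div, inv_mul_cancel₀ hn0',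
        ENNReal.rpow_one]
    simp only [this]
    calc ∫⁻ x, g x ∂μ ≤ _ := hg3
      _ < b' + (b - b') := ENNReal.add_lt_add hsum hd1
      _ = b := add_tsub_cancel_of_le hb2.le

theorem core {n : ℕ} (hfin : Module.finrank ℝ X = n) (hn : 2 ≤ n) {r : X → X} {s : X → ℝ}
    (hr : Refl r s) (hnorm : ∀ x, ‖r x‖ = ‖x‖) (hμ : MeasurePreserving r μ μ) {E F : Set X}
    (hEne : E.Nonempty) (hE : IsCompact E) (hF : IsCompact F) (hEs : ∀ x ∈ E, 0 < s x)
    (hFs : ∀ x ∈ F, s x < 0) {ρ : X → ℝ≥0∞} (hρ : Measurable ρ)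
    (hadm : ∀ T c, IsCurve E (r '' F) T c → 1 ≤ ∫⁻ t in Icc 0 T, ρ (c t))
    {b : ℝ≥0∞} (hb : ∫⁻ x, ρ x ^ n ∂μ < b) :
    ∃ ρ' : X → ℝ≥0∞, Measurable ρ' ∧ ∫⁻ x, ρ' x ^ n ∂μ ≤ b ∧
      (∀ T c, IsCurve E F T c → 1 ≤ ∫⁻ t in Icc 0 T, ρ' (c t)) ∧
      ∃ R : ℝ, ∀ (T : ℝ) (c : ℝ → X), LipschitzWith 1 c → c 0 ∈ E →
        (∃ t ∈ Icc 0 T, R ≤ ‖c t‖) → 1 ≤ ∫⁻ t in Icc 0 T, ρ' (c t) := by
  obtain ⟨b1, hbb1, hb1⟩ := exists_between hb
  have hb1t : b1 ≠ ∞ := ne_top_of_lt hb1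
  obtain ⟨R₀, hR₀⟩ := hE.isBounded.exists_norm_le
  have hR₀0 : 0 ≤ R₀ := by
    obtain ⟨x, hx⟩ := hEne
    exact (norm_nonneg x).trans (hR₀ x hx)
  obtain ⟨a, R, ρ1, ha, hR, haR, hlsc, hρ1, hw1, hint⟩ := exists_lsc μ hfin hn hρ hbb1 hR₀0
  have hR0 : 0 ≤ R := by linarith
  have hwc : Continuous fun x : X => wf a R ‖x‖ := (wf_cont a R).comp continuous_norm
  obtain ⟨σ, hσc, hσw, hσm, hσs, hσb⟩ := exists_approx hlsc hwc
    (W := a) (fun x => wf_le' ha.le R _) hw1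
  have hσ0 : ∀ k x, 0 ≤ σ k x := fun k x => (wf_nonneg ha.le R ‖x‖).trans (hσw k x)
  -- choice of `η`
  obtain ⟨η, hη0, hη1, hηb⟩ : ∃ η : ℝ, 0 < η ∧ η < 1 ∧
      ∫⁻ x, ρ1 x ^ n ∂μ ≤ ENNReal.ofReal η ^ n * b1 := by
    have h1 : Tendsto (fun η : ℝ => ENNReal.ofReal η ^ n * b1) (𝓝[<] 1) (𝓝 b1) := by
      have h2 : Tendsto (fun η : ℝ => ENNReal.ofReal η ^ n * b1) (𝓝 1)
          (𝓝 (ENNReal.ofReal 1 ^ n * b1)) := by
        apply ENNReal.Tendsto.mul_const _ (Or.inr hb1t)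
        apply ENNReal.Tendsto.pow
        exact ENNReal.continuous_ofReal.tendsto 1
      rw [ENNReal.ofReal_one, one_pow, one_mul] at h2
      exact h2.mono_left nhdsWithin_le_nhds
    have h3 : ∀ᶠ η : ℝ in 𝓝[<] 1, 0 < η :=
      (lt_mem_nhds (zero_lt_one : (0 : ℝ) < 1)).filter_mono nhdsWithin_le_nhds
    obtain ⟨η, h4, h5, h6⟩ :=
      ((h1.eventually_const_lt hint).and (h3.and self_mem_nhdsWithin)).exists
    exact ⟨η, h5, h6, h4.le⟩
  have hm : 0 < a / (1 + R) := by positivity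
  obtain ⟨k, hk⟩ := exists_good (E := E) (F := r '' F) hE.isClosed
    (hF.image hr.cont).isClosed (ρ := ρ1)
    (fun T c hc => (hadm T c hc).trans (lintegral_mono fun t => hρ1 _))
    hσc hwc (fun x => wf_nonneg ha.le R _) hσw hσm hσs hσb (R := R) (m := a / (1 + R)) hm
    (by
      intro x hx
      rw [mem_closedBall_zero_iff] at hx
      show a / (1 + R) ≤ wf a R ‖x‖
      rw [wf_eq (norm_nonneg x) hx]
      have := norm_nonneg x
      apply div_le_div_of_nonneg_left ha.le (by positivity)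
      linarith)
    (by
      rintro T c hc hT hc0 ⟨t, ht, htR⟩
      exact escape_integral hR₀0 hR.le ha haR hT hc (hR₀ _ hc0) ⟨t, ht, htR.le⟩)
    hη1
  obtain ⟨K, hK⟩ := hσb k
  have hK0 : 0 ≤ K := (hσ0 k 0).trans (hK 0)
  set u := du (σ k) E with hu
  have huL : ∀ x y, |u y - u x| ≤ K * ‖y - x‖ := du_lipschitz hEne (hσc k) (hσ0 k) hK
  set σ' := polD r s u (σ k) with hσ'
  have hσ'm : Measurable σ' := polD_measurable hr huL (hσc k)
  have hη' : ENNReal.ofReal η ≠ 0 := by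
    rw [Ne, ENNReal.ofReal_eq_zero, not_le]; exact hη0
  have hηt : ENNReal.ofReal η ≠ ∞ := ENNReal.ofReal_ne_top
  have hpull : ∀ (T : ℝ) (c : ℝ → X), Continuous c →
      ∫⁻ t in Icc 0 T, ENNReal.ofReal (σ' (c t)) / ENNReal.ofReal η =
        (∫⁻ t in Icc 0 T, ENNReal.ofReal (σ' (c t))) / ENNReal.ofReal η := by
    intro T c hc
    simp only [div_eq_mul_inv]
    rw [lintegral_mul_const']
    exact ENNReal.inv_ne_top.2 hη'
  refine ⟨fun x => ENNReal.ofReal (σ' x) / ENNReal.ofReal η,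
    hσ'm.ennreal_ofReal.div_const _, ?_, ?_, R, ?_⟩
  · have h1 : ∀ x, (ENNReal.ofReal (σ' x) / ENNReal.ofReal η) ^ n =
        ENNReal.ofReal (σ' x) ^ n * (ENNReal.ofReal η ^ n)⁻¹ := by
      intro x
      rw [div_eq_mul_inv, mul_pow, ENNReal.inv_pow]
    simp only [h1]
    rw [lintegral_mul_const' _ _ (ENNReal.inv_ne_top.2 (pow_ne_zero n hη'))]
    have h2 : ∫⁻ x, ENNReal.ofReal (σ' x) ^ n ∂μ = ∫⁻ x, ENNReal.ofReal (σ k x) ^ n ∂μ :=
      polD_lintegral hr huL hμ (fun y => ENNReal.ofReal y ^ n)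
        (ENNReal.measurable_ofReal.pow_const n) (hσc k)
    rw [h2]
    have h3 : ∫⁻ x, ENNReal.ofReal (σ k x) ^ n ∂μ ≤ ∫⁻ x, ρ1 x ^ n ∂μ := by
      apply lintegral_mono
      intro x
      apply pow_le_pow_left₀ zero_le
      rw [← hσs x]
      exact le_iSup (fun k => ENNReal.ofReal (σ k x)) k
    rw [← div_eq_mul_inv]
    apply ENNReal.div_le_of_le_mul
    refine (h3.trans hηb).trans ?_
    rw [mul_comm]
    exact mul_le_mul_of_nonneg_right hb1.le zero_le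
  · intro T c hc
    rw [hpull T c hc.lip.continuous]
    have h1 := pol_admissible hr huL hK0 (hσ0 k)
      (du_slope hEne (hσc k) (hσ0 k) hK) hEs hFs (du_nonneg (hσ0 k))
      (fun x hx => du_zero (hσ0 k) hx) (η := η)
      (fun x hx => le_du hEne (hσc k) hK hk (mem_image_of_mem r hx)) hc
    rw [ENNReal.le_div_iff_mul_le (Or.inl hη') (Or.inl hηt), one_mul]
    exact h1
  · intro T c hc hc0 hex
    rw [hpull T c hc.continuous, ENNReal.le_div_iff_mul_le (Or.inl hη') (Or.inl hηt), one_mul]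
    have h1 := escape_lintegral hR₀0 hR.le ha haR hc (hR₀ _ hc0) hex
    calc ENNReal.ofReal η ≤ 1 := by
          rw [← ENNReal.ofReal_one]; exact ENNReal.ofReal_le_ofReal hη1.le
      _ ≤ _ := h1
      _ ≤ _ := by
        apply lintegral_mono
        intro t
        apply ENNReal.ofReal_le_ofReal
        exact polD_le hr huL (τ := fun x => wf a R ‖x‖) (fun x => by rw [hnorm]) (hσw k) _

end Pool.Agent.K9h73.RM
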