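import Pool.Agent.K9h73.RM.Basic

/-!
# Polarization of the distance function
-/

set_option autoImplicit false
set_option linter.unusedSectionVars false

open MeasureTheory Set Filter Topology
open scoped ENNReal NNReal

namespace Pool.Agent.K9h73.RM

variable {X : Type*} [NormedAddCommGroup X] [NormedSpace ℝ X]

/-- `r` is a reflection, `s` its signed distance from the mirror -/
structure Refl (r : X → X) (s : X → ℝ) : Prop where
  isom : ∀ x y, ‖r x - r y‖ = ‖x - y‖
  invol : ∀ x, r (r x) = x
  side_neg : ∀ x, s (r x) = - s x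
  side_zero : ∀ x, s x = 0 → r x = x
  dist_side : ∀ x, ‖x - r x‖ ≤ 2 * |s x|
  side_lip : ∀ x y, |s x - s y| ≤ ‖x - y‖

section
variable {r : X → X} {s : X → ℝ} (R : Refl r s)
include R

theorem Refl.lip : LipschitzWith 1 r := by
  apply LipschitzWith.of_dist_le_mul
  intro x y
  rw [dist_eq_norm, dist_eq_norm, R.isom]; simp

theorem Refl.cont : Continuous r := R.lip.continuous

theorem Refl.side_cont : Continuous s := by
  have : LipschitzWith 1 s := by
    apply LipschitzWith.of_dist_le_mul
    intro x y
    rw [Real.dist_eq, dist_eq_norm]; simpa using R.side_lip x y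
  exact this.continuous

end

/-- the set where values are exchanged -/
def swap (r : X → X) (s : X → ℝ) (u : X → ℝ) : Set X :=
  {x | 0 < s x ∧ u (r x) < u x} ∪ {x | s x < 0 ∧ u x < u (r x)}

open Classical in
/-- polarization of `u` -/
noncomputable def pol (r : X → X) (s : X → ℝ) (u : X → ℝ) (x : X) : ℝ :=
  if x ∈ swap r s u then u (r x) else u x

open Classical in
/-- the corresponding rearrangement of the density -/
noncomputable def polD (r : X → X) (s : X → ℝ) (u σ : X → ℝ) (x : X) : ℝ :=
  if x ∈ swap r s u then σ (r x) else σ x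

section
variable {r : X → X} {s : X → ℝ} (R : Refl r s) {u : X → ℝ} {K : ℝ}
  (hu : ∀ x y, |u y - u x| ≤ K * ‖y - x‖)
include R hu

theorem cont_of_lip : Continuous u := by
  have : LipschitzWith K.toNNReal u := by
    apply LipschitzWith.of_dist_le_mul
    intro x y
    rw [Real.dist_eq, dist_eq_norm]
    refine (hu y x).trans (mul_le_mul_of_nonneg_right ?_ (norm_nonneg _))
    exact Real.le_coe_toNNReal K
  exact this.continuous

theorem swap_open : IsOpen (swap r s u) := by
  have hc := cont_of_lip R hu
  have hr := R.cont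
  have hs := R.side_cont
  unfold swap
  apply IsOpen.union
  · exact (isOpen_lt continuous_const hs).inter (isOpen_lt (hc.comp hr) hc)
  · exact (isOpen_lt hs continuous_const).inter (isOpen_lt hc (hc.comp hr))

omit hu in
theorem swap_inv (x : X) : r x ∈ swap r s u ↔ x ∈ swap r s u := by
  unfold swap
  simp only [mem_union, mem_ofPred_eq, R.invol, R.side_neg]
  constructor
  · rintro (⟨h1, h2⟩ | ⟨h1, h2⟩)
    · right; exact ⟨by linarith, h2⟩
    · left; exact ⟨by linarith, h2⟩
  · rintro (⟨h1, h2⟩ | ⟨h1, h2⟩)
    · right; exact ⟨by linarith, h2⟩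
    · left; exact ⟨by linarith, h2⟩

omit hu in
/-- closed formula for the polarization -/
theorem pol_eq (x : X) : pol r s u x =
    (u x + u (r x)) / 2 - (if 0 ≤ s x then |u x - u (r x)| else - |u x - u (r x)|) / 2 := by
  unfold pol
  rcases lt_trichotomy (s x) 0 with h | h | h
  · rw [if_neg (not_le.2 h)]
    by_cases h2 : u x < u (r x)
    · have hm : x ∈ swap r s u := Or.inr ⟨h, h2⟩
      rw [if_pos hm, abs_of_neg (by linarith)]; ring
    · have hm : x ∉ swap r s u := by
        rintro (⟨h3, _⟩ | ⟨_, h4⟩)
        · linarith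
        · exact h2 h4
      rw [if_neg hm, abs_of_nonneg (by linarith)]
      ring
  · have h1 := R.side_zero x h
    have hm : x ∉ swap r s u := by
      rintro (⟨h3, _⟩ | ⟨h3, _⟩) <;> linarith
    rw [if_neg hm, h1, if_pos h.symm.le]
    simp
  · rw [if_pos h.le]
    by_cases h2 : u (r x) < u x
    · have hm : x ∈ swap r s u := Or.inl ⟨h, h2⟩
      rw [if_pos hm, abs_of_pos (by linarith)]; ring
    · have hm : x ∉ swap r s u := by
        rintro (⟨_, h4⟩ | ⟨h3, _⟩)
        · exact h2 h4
        · linarith
      rw [if_neg hm, abs_of_nonpos (by linarith)]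
      ring

omit hu in
theorem pol_sub_le (x : X) : |pol r s u x - u x| ≤ |u x - u (r x)| := by
  unfold pol
  split_ifs with h
  · rw [abs_sub_comm]
  · simp

theorem pol_lipschitz (hK : 0 ≤ K) (x y : X) :
    |pol r s u y - pol r s u x| ≤ (2 * K) * ‖y - x‖ := by
  rw [pol_eq R, pol_eq R]
  have h1 := hu x y
  have h2 := hu (r x) (r y)
  rw [R.isom] at h2
  have h3 : |(if 0 ≤ s y then |u y - u (r y)| else - |u y - u (r y)|) -
      (if 0 ≤ s x then |u x - u (r x)| else - |u x - u (r x)|)| ≤ 2 * K * ‖y - x‖ := by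
    have hsame : |(|u y - u (r y)| - |u x - u (r x)|)| ≤ 2 * K * ‖y - x‖ := by
      refine (abs_abs_sub_abs_le _ _).trans ?_
      have : u y - u (r y) - (u x - u (r x)) = (u y - u x) - (u (r y) - u (r x)) := by ring
      rw [this]
      refine (abs_sub _ _).trans ?_
      linarith
    have hopp : ∀ a b : X, 0 ≤ s a → s b < 0 →
        |u a - u (r a)| + |u b - u (r b)| ≤ 2 * K * ‖a - b‖ := by
      intro a b ha hb
      have e1 : |u a - u (r a)| ≤ K * (2 * |s a|) :=
        (hu (r a) a).trans (mul_le_mul_of_nonneg_left (R.dist_side a) hK)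
      have e2 : |u b - u (r b)| ≤ K * (2 * |s b|) :=
        (hu (r b) b).trans (mul_le_mul_of_nonneg_left (R.dist_side b) hK)
      have e3 : |s a| + |s b| ≤ ‖a - b‖ := by
        rw [abs_of_nonneg ha, abs_of_neg hb]
        have := R.side_lip a b
        have h4 := le_abs_self (s a - s b)
        linarith
      nlinarith
    split_ifs with ha hb hb
    · exact hsame
    · have := hopp y x ha (not_le.1 hb)
      rw [sub_neg_eq_add, abs_of_nonneg (by positivity)]
      exact this
    · have := hopp x y hb (not_le.1 ha)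
      rw [norm_sub_rev] at this
      rw [abs_of_nonpos (by
        have := abs_nonneg (u y - u (r y))
        have := abs_nonneg (u x - u (r x))
        linarith)]
      linarith
    · rw [← abs_neg]
      have : -(-|u y - u (r y)| - -|u x - u (r x)|) = |u y - u (r y)| - |u x - u (r x)| := by ring
      rw [this]; exact hsame
  rw [abs_le] at h1 h2 h3 ⊢
  constructor <;> linarith [h1.1, h1.2, h2.1, h2.2, h3.1, h3.2]

/-- the derivative of the polarized function along a curve -/
theorem pol_deriv_le (hK : 0 ≤ K) {σ : X → ℝ} (hσ : ∀ x, 0 ≤ σ x)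
    (hs : ∀ x, SlopeLE u (σ x) x) {c : ℝ → X} (hc : LipschitzWith 1 c) :
    ∀ᵐ t : ℝ, DifferentiableAt ℝ (fun t => pol r s u (c t)) t →
      deriv (fun t => pol r s u (c t)) t ≤ polD r s u σ (c t) := by
  have huc := cont_of_lip R hu
  set f1 : ℝ → ℝ := fun t => u (c t) with hf1
  set f2 : ℝ → ℝ := fun t => u (r (c t)) with hf2
  have hL : ∀ {v : X → ℝ}, (∀ x y, |v y - v x| ≤ K * ‖y - x‖) →
      LipschitzWith K.toNNReal (fun t => v (c t)) := by
    intro v hv
    apply LipschitzWith.of_dist_le_mul
    intro a b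
    rw [Real.dist_eq, Real.dist_eq]
    refine (hv (c b) (c a)).trans ?_
    rw [Real.coe_toNNReal K hK]
    exact mul_le_mul_of_nonneg_left (lip_dist hc a b) hK
  have hr : ∀ x y, |u (r y) - u (r x)| ≤ K * ‖y - x‖ := by
    intro x y
    have := hu (r x) (r y)
    rwa [R.isom] at this
  have hd1 : ∀ᵐ t : ℝ, DifferentiableAt ℝ f1 t := (hL hu).ae_differentiableAt_real
  have hd2 : ∀ᵐ t : ℝ, DifferentiableAt ℝ f2 t :=
    (hL (v := fun x => u (r x)) hr).ae_differentiableAt_real
  have hg := ae_deriv_zero (fun t => f1 t - f2 t)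
  have hsr : ∀ x, SlopeLE (fun y => u (r y)) (σ (r x)) x := by
    intro x ε hε
    have h1 := R.cont.continuousAt.eventually (hs (r x) ε hε)
    filter_upwards [h1] with y hy
    rwa [R.isom] at hy
  filter_upwards [hd1, hd2, hg] with t h1 h2 h3 h4
  by_cases hS : c t ∈ swap r s u
  · -- inside the swap set
    have hev : ∀ᶠ z in 𝓝 t, c z ∈ swap r s u :=
      hc.continuous.continuousAt.eventually ((swap_open R hu).mem_nhds hS)
    have heq : (fun t => pol r s u (c t)) =ᶠ[𝓝 t] f2 := by
      filter_upwards [hev] with z hz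
      simp only [pol, if_pos hz, hf2]
    rw [heq.deriv_eq]
    unfold polD
    rw [if_pos hS]
    exact (le_abs_self _).trans (SlopeLE.deriv_le (hσ _) (hsr (c t)) hc h2.hasDerivAt)
  · unfold polD
    rw [if_neg hS]
    by_cases hg0 : f1 t - f2 t = 0
    · have hg' := h3 hg0 (h1.sub h2)
      have hgd : HasDerivAt (fun t => f1 t - f2 t) 0 t := by
        rw [← hg']; exact (h1.sub h2).hasDerivAt
      have hdiff : HasDerivAt (fun z => pol r s u (c z) - f1 z) 0 t := by
        rw [hasDerivAt_iff_isLittleO] at hgd ⊢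
        have e0 : pol r s u (c t) - f1 t = 0 := by
          have := pol_sub_le R (u := u) (c t)
          rw [show u (c t) - u (r (c t)) = 0 from hg0, abs_zero] at this
          exact abs_eq_zero.1 (le_antisymm this (abs_nonneg _))
        rw [e0]
        rw [hg0] at hgd
        refine Asymptotics.IsBigO.trans_isLittleO ?_ hgd
        refine Asymptotics.IsBigO.of_bound 1 (Eventually.of_forall fun z => ?_)
        simp only [sub_zero, smul_zero, one_mul, Real.norm_eq_abs]
        exact pol_sub_le R (c z)
      have hsum : HasDerivAt (fun z => pol r s u (c z)) (deriv f1 t) t := by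
        have := hdiff.add h1.hasDerivAt
        simp only [zero_add] at this
        refine this.congr_of_eventuallyEq (Eventually.of_forall fun z => ?_)
        simp
      rw [hsum.deriv]
      exact (le_abs_self _).trans (SlopeLE.deriv_le (hσ _) (hs (c t)) hc h1.hasDerivAt)
    · have hs0 : s (c t) ≠ 0 := by
        intro h0
        apply hg0
        simp only [hf1, hf2, R.side_zero _ h0, sub_self]
      have hev : ∀ᶠ z in 𝓝 t, c z ∉ swap r s u := by
        have hcc := hc.continuous
        have k1 : Continuous fun z => s (c z) := R.side_cont.comp hcc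
        have k2 : Continuous f1 := huc.comp hcc
        have k3 : Continuous f2 := (huc.comp R.cont).comp hcc
        rcases lt_or_gt_of_ne hs0 with h | h
        · have h5 : f2 t < f1 t := by
            by_contra h6
            have h7 : f1 t < f2 t := lt_of_le_of_ne (not_lt.1 h6) (fun h => hg0 (by rw [h, sub_self]))
            exact hS (Or.inr ⟨h, h7⟩)
          filter_upwards [(k1.tendsto t).eventually_lt_const h,
            (k3.tendsto t).eventually_lt (k2.tendsto t) h5] with z hz1 hz2
          rintro (⟨h8, _⟩ | ⟨_, h8⟩)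
          · exact absurd h8 (not_lt.2 hz1.le)
          · exact absurd h8 (not_lt.2 hz2.le)
        · have h5 : f1 t < f2 t := by
            by_contra h6
            have h7 : f2 t < f1 t := lt_of_le_of_ne (not_lt.1 h6) (fun h => hg0 (by rw [h, sub_self]))
            exact hS (Or.inl ⟨h, h7⟩)
          filter_upwards [(k1.tendsto t).eventually_const_lt h,
            (k2.tendsto t).eventually_lt (k3.tendsto t) h5] with z hz1 hz2
          rintro (⟨_, h8⟩ | ⟨h8, _⟩)
          · exact absurd h8 (not_lt.2 hz2.le)
          · exact absurd h8 (not_lt.2 hz1.le)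
      have heq : (fun t => pol r s u (c t)) =ᶠ[𝓝 t] f1 := by
        filter_upwards [hev] with z hz
        simp only [pol, if_neg hz, hf1]
      rw [heq.deriv_eq]
      exact (le_abs_self _).trans (SlopeLE.deriv_le (hσ _) (hs (c t)) hc h1.hasDerivAt)

/-- the rearranged density is admissible for the reflected family -/
theorem pol_admissible (hK : 0 ≤ K) {σ : X → ℝ} (hσ : ∀ x, 0 ≤ σ x)
    (hs : ∀ x, SlopeLE u (σ x) x) {E F : Set X} (hE : ∀ x ∈ E, 0 < s x) (hF : ∀ x ∈ F, s x < 0)
    (hu0 : ∀ x, 0 ≤ u x) (huE : ∀ x ∈ E, u x = 0) {η : ℝ} (huF : ∀ x ∈ F, η ≤ u (r x))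
    {T : ℝ} {c : ℝ → X} (hc : IsCurve E F T c) :
    ENNReal.ofReal η ≤ ∫⁻ t in Icc 0 T, ENNReal.ofReal (polD r s u σ (c t)) := by
  have hLip : LipschitzOnWith (2 * K).toNNReal (fun t => pol r s u (c t)) (Icc 0 T) := by
    apply LipschitzOnWith.of_dist_le_mul
    intro a _ b _
    rw [Real.dist_eq, Real.dist_eq, Real.coe_toNNReal _ (by positivity)]
    exact (pol_lipschitz R hu hK (c b) (c a)).trans
      (mul_le_mul_of_nonneg_left (lip_dist hc.lip a b) (by positivity))
  have hmain := sub_le_lintegral hc.nonneg hLip (h := fun t => polD r s u σ (c t)) (by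
    filter_upwards [pol_deriv_le R hu hK hσ hs hc.lip] with t ht _ h
    exact ht h)
  refine le_trans (ENNReal.ofReal_le_ofReal ?_) hmain
  have h0 : pol r s u (c 0) ≤ 0 := by
    have h1 := huE _ hc.start
    have h2 := hE _ hc.start
    unfold pol
    rw [if_neg]
    · exact h1.le
    · rintro (⟨_, h3⟩ | ⟨h3, _⟩)
      · rw [h1] at h3
        exact absurd (hu0 (r (c 0))) (not_le.2 h3)
      · linarith
  have hT : η ≤ pol r s u (c T) := by
    have h1 := huF _ hc.fin
    have h2 := hF _ hc.fin
    unfold pol
    split_ifs with h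
    · exact h1
    · by_contra h3
      exact h (Or.inr ⟨h2, lt_of_lt_of_le (not_le.1 h3) h1⟩)
  linarith

theorem polD_measurable [MeasurableSpace X] [BorelSpace X] {σ : X → ℝ} (hσ : Continuous σ) :
    Measurable (polD r s u σ) := by
  unfold polD
  exact Measurable.ite (swap_open R hu).measurableSet
    (hσ.comp R.cont).measurable hσ.measurable

theorem polD_lintegral [MeasurableSpace X] [BorelSpace X] {μ : Measure X}
    (hr : MeasurePreserving r μ μ) {σ : X → ℝ} (f : ℝ → ℝ≥0∞) (hf : Measurable f)
    (hσ : Continuous σ) :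
    ∫⁻ x, f (polD r s u σ x) ∂μ = ∫⁻ x, f (σ x) ∂μ := by
  have hS := (swap_open R hu).measurableSet
  rw [← lintegral_add_compl _ hS, ← lintegral_add_compl (fun x => f (σ x)) hS]
  congr 1
  · have h1 : ∫⁻ x in swap r s u, f (polD r s u σ x) ∂μ =
        ∫⁻ x in swap r s u, f (σ (r x)) ∂μ := by
      apply setLIntegral_congr_fun hS
      intro x hx
      simp only [polD, if_pos hx]
    have h2 : r ⁻¹' (swap r s u) = swap r s u := by
      ext x; exact swap_inv R x
    rw [h1]
    have h3 := hr.setLIntegral_comp_preimage hS (hf.comp hσ.measurable)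
    rw [h2] at h3
    exact h3
  · apply setLIntegral_congr_fun hS.compl
    intro x hx
    simp only [polD, if_neg hx]

theorem polD_le {σ τ : X → ℝ} (hτ : ∀ x, τ (r x) = τ x) (h : ∀ x, τ x ≤ σ x) (x : X) :
    τ x ≤ polD r s u σ x := by
  unfold polD
  split_ifs with hx
  · rw [← hτ x]; exact h _
  · exact h x

end

end Pool.Agent.K9h73.RM
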